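import Pool.Agent.Helper752.Card.Top

set_option autoImplicit false

open Finset Filter Topology Cardinal

namespace Pool.Agent.Helper752.Card

lemma digits_det {k : ℕ} {d d' : Slot k → Bool} (h : fd d = fd d') (hk : kk d = 0 ∨ kk d = k) :
    d = d' := by
  unfold fd at h
  simp only [Prod.mk.injEq] at h
  obtain ⟨h1, h2, h3, h4⟩ := h
  funext s
  rcases s with i | j
  · rcases hk with hk | hk
    · have e1 : d (Sum.inl i) = false := by
        by_contra hcon
        have : i ∈ univ.filter (fun i : Fin k => d (Sum.inl i) = true) := by simpa using hcon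
        have h5 : 0 < kk d := card_pos.2 ⟨i, this⟩
        omega
      have e2 : d' (Sum.inl i) = false := by
        by_contra hcon
        have : i ∈ univ.filter (fun i : Fin k => d' (Sum.inl i) = true) := by simpa using hcon
        have h5 : 0 < kk d' := card_pos.2 ⟨i, this⟩
        omega
      rw [e1, e2]
    · have full : ∀ e : Slot k → Bool, kk e = k → e (Sum.inl i) = true := by
        intro e he
        unfold kk at he
        have h6 : univ.filter (fun i : Fin k => e (Sum.inl i) = true) = (Finset.univ : Finset (Fin k)) := by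
          apply eq_univ_of_card
          rw [he]; simp
        have : i ∈ univ.filter (fun i : Fin k => e (Sum.inl i) = true) := by rw [h6]; simp
        simpa using this
      rw [full d hk, full d' (by omega)]
  · unfold be at h3; unfold io at h2; unfold ee at h1
    fin_cases j
    · exact h3
    · exact h2
    · exact h1

namespace Sys

variable {S : Sys}

lemma T_fd {D D' : S.Pat} (h : ∀ n, fd (D n) = fd (D' n)) : S.T D 0 = S.T D' 0 := by
  unfold T
  apply tsum_congr
  intro i
  have := h (0 + i)
  unfold fd at this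
  simp only [Prod.mk.injEq] at this
  obtain ⟨h1, h2, h3, h4⟩ := this
  rw [S.val_eq, S.val_eq, h1, h2, h3, h4]

lemma count_eq {t : ℝ} {D : S.Pat} (hD : D ∈ S.Cls t)
    (hu : ∀ D' ∈ S.Cls t, ∀ n, fd (D' n) = fd (D n)) (n0 : ℕ)
    (hk : ∀ n, n ≠ n0 → kk (D n) = 0 ∨ kk (D n) = S.m n) :
    #(S.Cls t) = (((S.m n0).choose (kk (D n0)) : ℕ) : Cardinal) := by
  classical
  let back : Finset (Fin (S.m n0)) → S.Pat := fun A => Function.update D n0
    (Sum.elim (fun i => decide (i ∈ A)) (fun j => D n0 (Sum.inr j)))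
  have hback : ∀ A : Finset (Fin (S.m n0)), A.card = kk (D n0) → back A ∈ S.Cls t := by
    intro A hA
    show S.T _ 0 = t
    rw [← hD]
    apply T_fd
    intro n
    by_cases hn : n = n0
    · subst hn
      simp only [back, Function.update_self]
      unfold fd ee io be
      simp only [Sum.elim_inr, Prod.mk.injEq, true_and]
      rw [← hA]
      unfold kk
      simp
    · simp only [back, Function.update_of_ne hn]
  let e : S.Cls t ≃ {A : Finset (Fin (S.m n0)) // A ∈ powersetCard (kk (D n0)) univ} :=
    { toFun := fun D' => ⟨univ.filter (fun i => D'.1 n0 (Sum.inl i) = true), by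
        rw [mem_powersetCard]
        refine ⟨subset_univ _, ?_⟩
        have := hu D'.1 D'.2 n0
        unfold fd at this
        simp only [Prod.mk.injEq] at this
        exact this.2.2.2⟩
      invFun := fun A => ⟨back A.1, hback A.1 (mem_powersetCard.1 A.2).2⟩
      left_inv := by
        intro D'
        apply Subtype.ext
        funext n
        by_cases hn : n = n0
        · subst hn
          simp only [back, Function.update_self]
          funext s
          have := hu D'.1 D'.2 n
          unfold fd ee io be at this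
          simp only [Prod.mk.injEq] at this
          rcases s with i | j
          · simp
          · fin_cases j
            · exact this.2.2.1.symm
            · exact this.2.1.symm
            · exact this.1.symm
        · simp only [back, Function.update_of_ne hn]
          exact digits_det (hu D'.1 D'.2 n).symm (hk n hn)
      right_inv := by
        intro A
        apply Subtype.ext
        ext i
        simp [back] }
  rw [Cardinal.mk_congr e, Cardinal.mk_coe_finset, card_powersetCard]
  simp

/-- the size of a formally unique class. -/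
lemma count_cases {t : ℝ} {D : S.Pat} (hD : D ∈ S.Cls t)
    (hu : ∀ D' ∈ S.Cls t, ∀ n, fd (D' n) = fd (D n)) :
    #(S.Cls t) = 1 ∨ ∃ n, #(S.Cls t) = ((S.m n : ℕ) : Cardinal) := by
  have rg : ∀ n, S.Rig D n := by
    intro n D' _ hT
    exact hu D' (hT.trans hD) n
  have triv : ∀ n, ¬ S.TN D n → kk (D n) = 0 ∨ kk (D n) = S.m n := by
    intro n hn
    rcases five (rg n) with ⟨-, h, -⟩ | ⟨-, h, -⟩ | h
    · left; exact h
    · right; exact h
    · exact absurd h hn
  by_cases hN : ∃ n, S.TN D n
  · obtain ⟨n, hn⟩ := hN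
    right
    refine ⟨n, ?_⟩
    have ht : ∀ i, i ≠ n → kk (D i) = 0 ∨ kk (D i) = S.m i := by
      intro i hi
      apply triv
      intro hi'
      rcases lt_or_gt_of_ne hi with h1 | h1
      · rcases no_N_after (N := 0) (fun k _ => rg k) (Nat.zero_le i) hi' n h1 with h2 | h2
        · exact (TN_not D n hn).2.1 h2
        · exact (TN_not D n hn).2.2.1 h2
      · rcases no_N_after (N := 0) (fun k _ => rg k) (Nat.zero_le n) hn i h1 with h2 | h2
        · exact (TN_not D i hi').2.1 h2
        · exact (TN_not D i hi').2.2.1 h2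
    rw [count_eq hD hu n ht]
    rcases hn with ⟨-, h1⟩ | ⟨-, h1⟩
    · rw [h1]; simp
    · have : (S.m n).choose (kk (D n)) = S.m n := by
        rw [← Nat.choose_symm (kk_le _)]
        have : S.m n - kk (D n) = 1 := by omega
        rw [this]; simp
      rw [this]
  · push Not at hN
    left
    rw [count_eq hD hu 0 (fun n _ => triv n (hN n))]
    rcases triv 0 (hN 0) with h | h
    · rw [h]; simp
    · rw [h]; simp

/-! ### forced digits -/

lemma bv_false_of {x : Bool} {a t : ℝ} (h : bv x * a ≤ t) (hlt : t < a) : x = false := by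
  cases x with
  | false => rfl
  | true => simp at h; linarith

lemma cast_zero_of {k : ℕ} {a t : ℝ} (ha : 0 < a) (h : (k : ℝ) * a ≤ t) (hlt : t < a) : k = 0 := by
  by_contra hk
  have : (1 : ℝ) ≤ k := by exact_mod_cast Nat.one_le_iff_ne_zero.2 hk
  nlinarith

variable (S) in
lemma parts_nonneg (n : ℕ) (D : S.Pat) :
    0 ≤ bv (ee (D n)) * S.g n ∧ 0 ≤ bv (io (D n)) * S.h n ∧ 0 ≤ bv (be (D n)) * S.b n ∧
      0 ≤ (kk (D n) : ℝ) * S.w n := by
  have h1 := bv_nonneg (ee (D n)); have h2 := bv_nonneg (io (D n)); have h3 := bv_nonneg (be (D n))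
  have h4 := S.gpos n; have h5 := S.hpos n; have h6 := S.bpos n; have h7 := S.wpos n
  refine ⟨by positivity, by positivity, by positivity, by positivity⟩

variable (S) in
/-- the group `b, w` contributes less than `t < w` only when empty. -/
lemma low {D : S.Pat} {n : ℕ} {t : ℝ}
    (h : bv (be (D n)) * S.b n + (kk (D n) : ℝ) * S.w n + S.T D (n + 1) = t) (ht : t < S.w n) :
    be (D n) = false ∧ kk (D n) = 0 ∧ S.T D (n + 1) = t := by
  obtain ⟨-, -, p3, p4⟩ := S.parts_nonneg n D
  have hT := S.T_nonneg D (n + 1)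
  have hb := S.beq n; have het := S.et_pos n; have hw := S.wpos n
  have h3 : be (D n) = false := bv_false_of (a := S.b n) (t := t) (by linarith) (by linarith)
  have h4 : kk (D n) = 0 := cast_zero_of hw (t := t) (by linarith) ht
  rw [h3, h4] at h
  exact ⟨h3, h4, by simpa using h⟩

variable (S) in
/-- the group `b, w` is full when it has to reach more than `Z - w + s`. -/
lemma high {D : S.Pat} {n : ℕ} {t : ℝ}
    (h : bv (be (D n)) * S.b n + (kk (D n) : ℝ) * S.w n + S.T D (n + 1) = t)
    (ht : S.Z n - S.w n + S.s (n + 1) < t) :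
    be (D n) = true ∧ kk (D n) = S.m n ∧ S.T D (n + 1) = t - S.Z n := by
  have hT := S.T_le D (n + 1)
  have hb := S.beq n; have het := S.et_pos n; have hw := S.wpos n
  have hZ := S.Zeq n
  have hk : (kk (D n) : ℝ) ≤ S.m n := by exact_mod_cast kk_le (D n)
  have hkw : (kk (D n) : ℝ) * S.w n ≤ S.m n * S.w n := mul_le_mul_of_nonneg_right hk hw.le
  have h3 : be (D n) = true := by
    cases hx : be (D n) with
    | true => rfl
    | false => rw [hx] at h; simp at h; linarith
  have h4 : kk (D n) = S.m n := by
    by_contra hne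
    have hlt : kk (D n) + 1 ≤ S.m n := by have := kk_le (D n); omega
    have h5 : (kk (D n) : ℝ) + 1 ≤ S.m n := by exact_mod_cast hlt
    rw [h3] at h
    simp at h
    nlinarith
  rw [h3, h4] at h
  refine ⟨h3, h4, ?_⟩
  simp at h
  linarith

variable (S) in
lemma T_expand (D : S.Pat) (n : ℕ) : S.T D n = bv (ee (D n)) * S.g n + bv (io (D n)) * S.h n +
    bv (be (D n)) * S.b n + (kk (D n) : ℝ) * S.w n + S.T D (n + 1) := by
  rw [S.T_succ, S.val_eq]; unfold fv; ring

variable (S) in
lemma ineqs (n : ℕ) : 3 * S.w n < S.Z n ∧ S.Z n < S.h n ∧ S.Y n = S.Z n + S.h n ∧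
    S.Y n + S.r (n + 1) < S.g n ∧ S.p (n + 1) < S.w n ∧ S.r (n + 1) < S.w n ∧
    S.s (n + 1) = S.p (n + 1) + S.r (n + 1) ∧ 0 < S.w n ∧ 0 < S.p (n + 1) ∧ 0 < S.r (n + 1) :=
  ⟨S.Z_ge n, S.Z_lt_h n, S.Yeq n, S.g_gt n, S.c4 n, S.r_lt_w n, rfl, S.wpos n, S.ppos _, S.rpos _⟩

lemma small {D : S.Pat} {n : ℕ} (h : S.T D n < S.w n) :
    fd (D n) = (false, false, false, 0) ∧ S.T D (n + 1) = S.T D n := by
  obtain ⟨i1, i2, i3, i4, i5, i6, i7, i8, i9, i10⟩ := S.ineqs n
  obtain ⟨p1, p2, p3, p4⟩ := S.parts_nonneg n D
  have hT := S.T_nonneg D (n + 1)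
  have hE := S.T_expand D n
  have h1 : ee (D n) = false := bv_false_of (a := S.g n) (t := S.T D n) (by linarith) (by linarith)
  have h2 : io (D n) = false := bv_false_of (a := S.h n) (t := S.T D n) (by linarith) (by linarith)
  rw [h1, h2] at hE
  simp only [bv_false, zero_mul, zero_add] at hE
  obtain ⟨h3, h4, h5⟩ := S.low hE.symm h
  unfold fd
  rw [h1, h2, h3, h4]
  exact ⟨rfl, h5⟩

lemma stepA {D : S.Pat} {n : ℕ} (h : S.T D n = S.p n) :
    fd (D n) = (true, false, false, 0) ∧ S.T D (n + 1) = S.p (n + 1) := by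
  obtain ⟨i1, i2, i3, i4, i5, i6, i7, i8, i9, i10⟩ := S.ineqs n
  obtain ⟨p1, p2, p3, p4⟩ := S.parts_nonneg n D
  have hT := S.T_nonneg D (n + 1)
  have hT2 := S.T_le D (n + 1)
  have hE := S.T_expand D n
  have hg : S.p n = S.g n + S.p (n + 1) := by unfold g; ring
  have hZ := S.Zeq n
  have hk : (kk (D n) : ℝ) ≤ S.m n := by exact_mod_cast kk_le (D n)
  have hkw : (kk (D n) : ℝ) * S.w n ≤ S.m n * S.w n := mul_le_mul_of_nonneg_right hk i8.le
  have hga := S.ga_lt n
  unfold ga at hga
  have h1 : ee (D n) = true := by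
    cases hx : ee (D n) with
    | true => rfl
    | false =>
      exfalso
      rw [hx] at hE
      have hio : bv (io (D n)) * S.h n ≤ S.h n := by
        have := bv_le (io (D n)); have := S.hpos n; nlinarith
      have hbe : bv (be (D n)) * S.b n ≤ S.b n := by
        have := bv_le (be (D n)); have := S.bpos n; nlinarith
      simp only [bv_false, zero_mul, zero_add] at hE
      linarith
  rw [h1, h, hg] at hE
  simp only [bv_true, one_mul] at hE
  have h2 : io (D n) = false :=
    bv_false_of (a := S.h n) (t := S.p (n + 1)) (by linarith) (by linarith)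
  rw [h2] at hE
  simp only [bv_false, zero_mul] at hE
  obtain ⟨h3, h4, h5⟩ := S.low (n := n) (t := S.p (n + 1)) (by linarith) i5
  unfold fd
  rw [h1, h2, h3, h4]
  exact ⟨rfl, h5⟩

lemma stepB {D : S.Pat} {n : ℕ} (h : S.T D n = S.r n) :
    fd (D n) = (false, true, true, S.m n) ∧ S.T D (n + 1) = S.r (n + 1) := by
  obtain ⟨i1, i2, i3, i4, i5, i6, i7, i8, i9, i10⟩ := S.ineqs n
  obtain ⟨p1, p2, p3, p4⟩ := S.parts_nonneg n D
  have hT := S.T_nonneg D (n + 1)
  have hT2 := S.T_le D (n + 1)
  have hE := S.T_expand D n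
  have hr : S.r n = S.Z n + S.h n + S.r (n + 1) := by rw [← i3]; unfold Y; ring
  have hZ := S.Zeq n
  have hk : (kk (D n) : ℝ) ≤ S.m n := by exact_mod_cast kk_le (D n)
  have hkw : (kk (D n) : ℝ) * S.w n ≤ S.m n * S.w n := mul_le_mul_of_nonneg_right hk i8.le
  have h1 : ee (D n) = false := bv_false_of (a := S.g n) (t := S.T D n) (by linarith) (by linarith)
  rw [h1] at hE
  simp only [bv_false, zero_mul, zero_add] at hE
  have h2 : io (D n) = true := by
    cases hx : io (D n) with
    | true => rfl
    | false =>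
      exfalso
      rw [hx] at hE
      have hbe : bv (be (D n)) * S.b n ≤ S.b n := by
        have := bv_le (be (D n)); have := S.bpos n; nlinarith
      simp only [bv_false, zero_mul, zero_add] at hE
      linarith
  rw [h2, h, hr] at hE
  simp only [bv_true, one_mul] at hE
  obtain ⟨h3, h4, h5⟩ := S.high (n := n) (t := S.Z n + S.r (n + 1)) (D := D) (by linarith)
    (by linarith)
  unfold fd
  rw [h1, h2, h3, h4]
  exact ⟨rfl, by rw [h5]; ring⟩

lemma all_stepA {D : S.Pat} {n : ℕ} (h : S.T D n = S.p n) :
    ∀ i, n ≤ i → S.T D i = S.p i ∧ fd (D i) = (true, false, false, 0) := by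
  intro i hi
  induction i, hi using Nat.le_induction with
  | base => exact ⟨h, (stepA h).1⟩
  | succ i hi ih =>
    have := (stepA ih.1).2
    exact ⟨this, (stepA this).1⟩

lemma all_stepB {D : S.Pat} {n : ℕ} (h : S.T D n = S.r n) :
    ∀ i, n ≤ i → S.T D i = S.r i ∧ fd (D i) = (false, true, true, S.m i) := by
  intro i hi
  induction i, hi using Nat.le_induction with
  | base => exact ⟨h, (stepB h).1⟩
  | succ i hi ih =>
    have := (stepB ih.1).2
    exact ⟨this, (stepB this).1⟩

end Sys

end Pool.Agent.Helper752.Card
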