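import Pool.Agent.Helper752.Card.Param

set_option autoImplicit false

open Finset Filter Topology
open scoped Cardinal

namespace Pool.Agent.Helper752.Card

/-- a rationally independent family of reals indexed by `Fin 4 × ℕ`. -/
lemma exists_indep : ∃ v : Fin 4 × ℕ → ℝ, LinearIndependent ℚ v := by
  let B := Module.Basis.ofVectorSpace ℚ ℝ
  have h1 : #(Module.Basis.ofVectorSpaceIndex ℚ ℝ) = 𝔠 := by
    rw [← Real.rank_rat_real, ← B.mk_eq_rank'']
  have h2 : #(Fin 4 × ℕ) ≤ #(Module.Basis.ofVectorSpaceIndex ℚ ℝ) := by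
    rw [h1]
    exact (Cardinal.mk_le_aleph0).trans Cardinal.aleph0_le_continuum
  obtain ⟨f⟩ := h2
  exact ⟨fun i => B (f i), B.linearIndependent.comp f f.injective⟩

/-- a rationally independent family in prescribed intervals of positive reals. -/
lemma exists_indep_in (a b : Fin 4 × ℕ → ℝ) (h0 : ∀ i, 0 ≤ a i) (hab : ∀ i, a i < b i) :
    ∃ v : Fin 4 × ℕ → ℝ, LinearIndependent ℚ v ∧ ∀ i, a i < v i ∧ v i < b i := by
  obtain ⟨u, hu⟩ := exists_indep
  have hne : ∀ i, u i ≠ 0 := fun i => hu.ne_zero i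
  have hq : ∀ i, ∃ q : ℚ, a i < (q : ℝ) * u i ∧ (q : ℝ) * u i < b i := by
    intro i
    rcases lt_or_gt_of_ne (hne i) with hn | hp
    · have h1 : b i / u i < a i / u i := by
        apply div_lt_div_of_neg_of_lt hn (hab i)
      obtain ⟨q, hq1, hq2⟩ := exists_rat_btwn h1
      refine ⟨q, ?_, ?_⟩
      · rwa [lt_div_iff_of_neg hn] at hq2
      · rwa [div_lt_iff_of_neg hn] at hq1
    · have h1 : a i / u i < b i / u i := (div_lt_div_iff_of_pos_right hp).2 (hab i)
      obtain ⟨q, hq1, hq2⟩ := exists_rat_btwn h1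
      refine ⟨q, ?_, ?_⟩
      · rwa [div_lt_iff₀ hp] at hq1
      · rwa [lt_div_iff₀ hp] at hq2
  choose q hq1 hq2 using hq
  have hq0 : ∀ i, q i ≠ 0 := by
    intro i hi
    have := hq1 i
    rw [hi] at this
    have := h0 i
    simp at *
    linarith
  refine ⟨(fun i => Units.mk0 (q i) (hq0 i)) • u, hu.units_smul _, ?_⟩
  intro i
  have e : ((fun i => Units.mk0 (q i) (hq0 i)) • u) i = (q i : ℝ) * u i := by
    rw [Pi.smul_apply', Units.smul_def, Units.val_mk0, Rat.smul_def]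
  rw [e]
  exact ⟨hq1 i, hq2 i⟩

/-- integer form of independence. -/
lemma indep_int {v : Fin 4 × ℕ → ℝ} (hv : LinearIndependent ℚ v) (N : ℕ) (A B C E : ℕ → ℤ)
    (h : ∑ n ∈ range N, ((A n : ℝ) * v (0, n) + (B n) * v (1, n) + (C n) * v (2, n)
      + (E n) * v (3, n)) = 0) :
    ∀ n, n < N → A n = 0 ∧ B n = 0 ∧ C n = 0 ∧ E n = 0 := by
  have h1 := linearIndependent_iff'.1 hv ((Finset.univ : Finset (Fin 4)) ×ˢ range N)
    (fun x => ![(A x.2 : ℚ), (B x.2 : ℚ), (C x.2 : ℚ), (E x.2 : ℚ)] x.1) (by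
      rw [sum_product, Fin.sum_univ_four]
      rw [← sum_add_distrib, ← sum_add_distrib, ← sum_add_distrib]
      rw [← h]
      apply sum_congr rfl
      intro n _
      simp [Rat.smul_def])
  intro n hn
  have k0 := h1 (0, n) (by simp [hn])
  have k1 := h1 (1, n) (by simp [hn])
  have k2 := h1 (2, n) (by simp [hn])
  have k3 := h1 (3, n) (by simp [hn])
  simp at k0 k1 k2 k3
  exact ⟨k0, k1, k2, k3⟩

/-- summation by shifting. -/
lemma shift1 (N : ℕ) (B : ℕ → ℤ) (v : ℕ → ℝ) :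
    ∑ k ∈ range N, (B k : ℝ) * v (k + 1)
      = ∑ k ∈ range (N + 2), ((if 1 ≤ k ∧ k ≤ N then B (k - 1) else 0 : ℤ) : ℝ) * v k := by
  rw [sum_range_succ, sum_range_succ']
  have h1 : ¬ (1 ≤ N + 1 ∧ N + 1 ≤ N) := by omega
  rw [if_neg h1]
  have h2 : ¬ (1 ≤ 0 ∧ 0 ≤ N) := by omega
  rw [if_neg h2]
  simp only [Int.cast_zero, zero_mul, add_zero]
  apply sum_congr rfl
  intro k hk
  rw [mem_range] at hk
  rw [if_pos (by omega)]
  simp

lemma shift2 (N : ℕ) (B : ℕ → ℤ) (v : ℕ → ℝ) :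
    ∑ k ∈ range N, (B k : ℝ) * v (k + 2)
      = ∑ k ∈ range (N + 2), ((if 2 ≤ k then B (k - 2) else 0 : ℤ) : ℝ) * v k := by
  rw [sum_range_succ', sum_range_succ']
  simp

lemma shift0 (N : ℕ) (B : ℕ → ℤ) (v : ℕ → ℝ) :
    ∑ k ∈ range N, (B k : ℝ) * v k
      = ∑ k ∈ range (N + 2), ((if k < N then B k else 0 : ℤ) : ℝ) * v k := by
  rw [sum_range_succ, sum_range_succ]
  rw [if_neg (by omega), if_neg (by omega)]
  simp only [Int.cast_zero, zero_mul, add_zero]
  apply sum_congr rfl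
  intro k hk
  rw [mem_range] at hk
  rw [if_pos hk]

theorem exists_gen (m : ℕ → ℕ) (hm : ∀ n, 1 ≤ m n) : ∃ S : Sys, S.m = m ∧ S.Gen := by
  obtain ⟨v, hv, hb⟩ := exists_indep_in
    (fun i => ![PP m i.2, 0, HH m i.2, WW m i.2] i.1)
    (fun i => ![PP m i.2 + dl m i.2, dl m i.2, HH m i.2 + dl m i.2, WW m i.2 + dl m i.2] i.1)
    (by
      rintro ⟨i, n⟩
      have h1 := (PP_pos m n).le
      have h2 := (HH_pos hm n).le
      have h3 := ((PP_pos m (n + 1)).trans (WW_gt (m := m) n)).le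
      fin_cases i
      · exact h1
      · exact le_refl (0 : ℝ)
      · exact h2
      · exact h3)
    (by
      rintro ⟨i, n⟩
      have h1 := dl_pos (m := m) n
      fin_cases i
      · show PP m n < PP m n + dl m n; linarith
      · show (0 : ℝ) < dl m n; linarith
      · show HH m n < HH m n + dl m n; linarith
      · show WW m n < WW m n + dl m n; linarith)
  have b0 : ∀ n, PP m n < v (0, n) ∧ v (0, n) < PP m n + dl m n := fun n => hb (0, n)
  have b1 : ∀ n, 0 < v (1, n) ∧ v (1, n) < dl m n := fun n => hb (1, n)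
  have b2 : ∀ n, HH m n < v (2, n) ∧ v (2, n) < HH m n + dl m n := fun n => hb (2, n)
  have b3 : ∀ n, WW m n < v (3, n) ∧ v (3, n) < WW m n + dl m n := fun n => hb (3, n)
  refine ⟨mkSys m hm (fun n => v (0, n)) (fun n => v (2, n)) (fun n => v (3, n))
    (fun n => v (1, n)) b0 b2 b3 (fun n => ⟨(b1 n).1.le, (b1 n).2⟩), rfl, ?_⟩
  intro N A B C E h
  have h' : ∑ n ∈ range N, ((A n : ℝ) * v (0, n) + (B n) * (2 * v (2, n) + v (2, n + 1)
      + v (0, n + 2) + v (1, n)) + (C n) * v (2, n) + (E n) * v (3, n)) = 0 := h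
  have e2 : ∑ n ∈ range N, ((A n : ℝ) * v (0, n) + (B n) * (2 * v (2, n) + v (2, n + 1)
      + v (0, n + 2) + v (1, n)) + (C n) * v (2, n) + (E n) * v (3, n))
      = ∑ n ∈ range N, ((A n : ℝ) * v (0, n)) + ∑ n ∈ range N, (B n : ℝ) * v (0, n + 2)
        + ∑ n ∈ range N, (B n : ℝ) * v (1, n) + ∑ n ∈ range N, (((C n + 2 * B n : ℤ) : ℝ) * v (2, n))
        + ∑ n ∈ range N, (B n : ℝ) * v (2, n + 1) + ∑ n ∈ range N, (E n : ℝ) * v (3, n) := by
    rw [← sum_add_distrib, ← sum_add_distrib, ← sum_add_distrib, ← sum_add_distrib,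
      ← sum_add_distrib]
    apply sum_congr rfl
    intro n _
    push_cast
    ring
  rw [e2, shift0 N A (fun n => v (0, n)), shift2 N B (fun n => v (0, n)),
    shift0 N B (fun n => v (1, n)), shift0 N (fun n => C n + 2 * B n) (fun n => v (2, n)),
    shift1 N B (fun n => v (2, n)), shift0 N E (fun n => v (3, n)),
    ← sum_add_distrib, ← sum_add_distrib, ← sum_add_distrib, ← sum_add_distrib,
      ← sum_add_distrib] at h'
  have h3 := indep_int hv (N + 2)
    (fun k => (if k < N then A k else 0) + (if 2 ≤ k then B (k - 2) else 0))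
    (fun k => if k < N then B k else 0)
    (fun k => (if k < N then C k + 2 * B k else 0) + (if 1 ≤ k ∧ k ≤ N then B (k - 1) else 0))
    (fun k => if k < N then E k else 0) (by
      rw [← h']
      apply sum_congr rfl
      intro k _
      push_cast
      ring)
  have hB : ∀ n, n < N → B n = 0 := by
    intro n hn
    have := (h3 n (by omega)).2.1
    simpa [hn] using this
  intro n hn
  obtain ⟨k1, k2, k3, k4⟩ := h3 n (by omega)
  have hA : A n = 0 := by
    simp only [hn, if_true] at k1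
    rcases Nat.lt_or_ge n 2 with h0 | h0
    · rw [if_neg (by omega)] at k1; linarith
    · rw [if_pos h0, hB (n - 2) (by omega)] at k1; linarith
  have hC : C n = 0 := by
    simp only [hn, if_true] at k3
    rw [hB n hn] at k3
    rcases Nat.lt_or_ge n 1 with h0 | h0
    · rw [if_neg (by omega)] at k3; linarith
    · rw [if_pos ⟨h0, hn.le⟩, hB (n - 1) (by omega)] at k3; linarith
  have hE : E n = 0 := by simpa [hn] using k4
  exact ⟨hA, hB n hn, hC, hE⟩

theorem exists_spe (m : ℕ → ℕ) (hm : ∀ n, 1 ≤ m n) : ∃ S : Sys, S.m = m ∧ S.Spe := by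
  obtain ⟨v, hv, hb⟩ := exists_indep_in
    (fun i => ![PP m i.2, 0, HH m i.2, WW m i.2] i.1)
    (fun i => ![PP m i.2 + dl m i.2, dl m i.2, HH m i.2 + dl m i.2, WW m i.2 + dl m i.2] i.1)
    (by
      rintro ⟨i, n⟩
      have h1 := (PP_pos m n).le
      have h2 := (HH_pos hm n).le
      have h3 := ((PP_pos m (n + 1)).trans (WW_gt (m := m) n)).le
      fin_cases i
      · exact h1
      · exact le_refl (0 : ℝ)
      · exact h2
      · exact h3)
    (by
      rintro ⟨i, n⟩
      have h1 := dl_pos (m := m) n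
      fin_cases i
      · show PP m n < PP m n + dl m n; linarith
      · show (0 : ℝ) < dl m n; linarith
      · show HH m n < HH m n + dl m n; linarith
      · show WW m n < WW m n + dl m n; linarith)
  have b0 : ∀ n, PP m n < v (0, n) ∧ v (0, n) < PP m n + dl m n := fun n => hb (0, n)
  have b2 : ∀ n, HH m n < v (2, n) ∧ v (2, n) < HH m n + dl m n := fun n => hb (2, n)
  have b3 : ∀ n, WW m n < v (3, n) ∧ v (3, n) < WW m n + dl m n := fun n => hb (3, n)
  refine ⟨mkSys m hm (fun n => v (0, n)) (fun n => v (2, n)) (fun n => v (3, n))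
    (fun _ => 0) b0 b2 b3 (fun n => ⟨le_rfl, dl_pos n⟩), rfl, ?_, ?_⟩
  · intro n
    show 2 * v (2, n) + v (2, n + 1) + v (0, n + 2) + 0 = 2 * v (2, n) + v (2, n + 1) + v (0, n + 2)
    ring
  · intro N A C E h
    have h' : ∑ n ∈ range N, ((A n : ℝ) * v (0, n) + (C n) * v (2, n) + (E n) * v (3, n)) = 0 := h
    have h3 := indep_int hv N A (fun _ => 0) C E (by
      rw [← h']
      apply sum_congr rfl
      intro k _
      push_cast
      ring)
    intro n hn
    exact ⟨(h3 n hn).1, (h3 n hn).2.2.1, (h3 n hn).2.2.2⟩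

end Pool.Agent.Helper752.Card
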