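import Pool.Agent.Helper752.Card.Rel

set_option autoImplicit false

open Finset Filter Topology

namespace Pool.Agent.Helper752.Card

namespace Sys

variable {S : Sys}

/-- no two formally different representations branching last at `l`. -/
def NoPair (S : Sys) : Prop :=
  ∀ (D D' : S.Pat) (l : ℕ), S.T D 0 = S.T D' 0 → (∀ n, n < l → fd (D n) = fd (D' n)) →
    (∀ n, l < n → S.Rig D n) → (∀ n, l < n → S.Rig D' n) → fd (D l) = fd (D' l)

lemma noPair_gen (hG : S.Gen) : S.NoPair := by
  intro D D' l hT _ h1 h2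
  obtain ⟨M, a, c, hE⟩ := evC_of_rig (N := l + 1) (fun n hn => h1 n (by omega))
  obtain ⟨M', a', c', hE'⟩ := evC_of_rig (N := l + 1) (fun n hn => h2 n (by omega))
  exact gen_same hG (M := max M M') (fun n hn => hE n (le_trans (le_max_left _ _) hn))
    (fun n hn => hE' n (le_trans (le_max_right _ _) hn)) hT l

lemma fd_zero {D D' : S.Pat} {n : ℕ} (h : fd (D n) = fd (D' n)) :
    de D D' n = 0 ∧ di D D' n = 0 ∧ db D D' n = 0 ∧ dk D D' n = 0 := by
  unfold fd at h
  simp only [Prod.mk.injEq] at h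
  obtain ⟨h1, h2, h3, h4⟩ := h
  unfold de di db dk
  rw [h1, h2, h3, h4]
  simp

/-- the five possible formal digits of a rigid level. -/
lemma five {D : S.Pat} {n : ℕ} (h : S.Rig D n) :
    (be (D n) = false ∧ kk (D n) = 0 ∧ io (D n) = false)
    ∨ (be (D n) = true ∧ kk (D n) = S.m n ∧ io (D n) = true)
    ∨ S.TN D n := by
  rcases ty_cases D n h with ⟨h1, -⟩ | ⟨h1, -⟩ | ⟨h1, -⟩ | ⟨h1, -⟩ | ⟨h1, -⟩
  · left; exact ⟨h1.1, h1.2.1, h1.2.2.1⟩
  · left; exact ⟨h1.1, h1.2.1, h1.2.2.1⟩
  · right; left; exact ⟨h1.1, h1.2.1, h1.2.2.1⟩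
  · right; left; exact ⟨h1.1, h1.2.1, h1.2.2.1⟩
  · right; right; exact h1

lemma spe_core (hS : S.Spe) {D D' : S.Pat} {l : ℕ} (hT : S.T D 0 = S.T D' 0)
    (hlt : ∀ n, n < l → fd (D n) = fd (D' n))
    (h1 : ∀ n, l < n → S.Rig D n) (h2 : ∀ n, l < n → S.Rig D' n) (hb : db D D' l = 1) : False := by
  obtain ⟨M, a, c, hE⟩ := evC_of_rig (N := l + 1) (fun n hn => h1 n (by omega))
  obtain ⟨M', a', c', hE'⟩ := evC_of_rig (N := l + 1) (fun n hn => h2 n (by omega))
  have R := spe_rel hS (M := max M M') (fun n hn => hE n (le_trans (le_max_left _ _) hn))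
    (fun n hn => hE' n (le_trans (le_max_right _ _) hn)) hT
  have dz : ∀ n, n < l → de D D' n = 0 ∧ db D D' n = 0 := fun n hn =>
    ⟨(fd_zero (hlt n hn)).1, (fd_zero (hlt n hn)).2.2.1⟩
  have Bz : ∀ n, n < l → cB D D' n = 0 := by
    intro n hn
    unfold cB
    rcases Nat.eq_zero_or_pos n with h0 | h0
    · rw [if_pos h0, (dz n hn).2]; ring
    · rw [if_neg (by omega), (dz n hn).2, (dz (n - 1) (by omega)).2]; ring
  have Bl : cB D D' l = 1 := by
    unfold cB
    rcases Nat.eq_zero_or_pos l with h0 | h0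
    · rw [if_pos h0, hb]; ring
    · rw [if_neg (by omega), hb, (dz (l - 1) (by omega)).2]; ring
  have Al : cA D D' l = de D D' l := by
    unfold cA
    rcases Nat.eq_zero_or_pos l with h0 | h0
    · rw [if_pos h0]; ring
    · rw [if_neg (by omega), (dz (l - 1) (by omega)).1]; ring
  have del : de D D' l = 0 := by
    obtain ⟨-, r2, -⟩ := R l
    rw [Al] at r2
    rcases Nat.lt_or_ge l 2 with h0 | h0
    · rw [if_neg (by omega)] at r2; linarith
    · rw [if_pos h0, Bz (l - 2) (by omega)] at r2; linarith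
  -- level l + 1
  have A1 : cA D D' (l + 1) = de D D' (l + 1) - de D D' l := by unfold cA; simp
  have B1 : cB D D' (l + 1) = db D D' (l + 1) - db D D' l := by unfold cB; simp
  have A2 : cA D D' (l + 2) = de D D' (l + 2) - de D D' (l + 1) := by unfold cA; simp
  have B2 : cB D D' (l + 2) = db D D' (l + 2) - db D D' (l + 1) := by unfold cB; simp
  have de1 : de D D' (l + 1) = 0 := by
    obtain ⟨-, r2, -⟩ := R (l + 1)
    rw [A1, del] at r2
    rcases Nat.lt_or_ge (l + 1) 2 with h0 | h0
    · rw [if_neg (by omega)] at r2; linarith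
    · rw [if_pos h0, Bz (l + 1 - 2) (by omega)] at r2; linarith
  have c1 : di D D' (l + 1) = 1 - db D D' (l + 1) := by
    obtain ⟨-, -, r3⟩ := R (l + 1)
    rw [if_pos (by omega), B1, Nat.add_sub_cancel, Bl, hb] at r3
    unfold cC at r3; linarith
  have e1 : dk D D' (l + 1) = S.m (l + 1) * db D D' (l + 1) := by
    obtain ⟨r1, -, -⟩ := R (l + 1)
    unfold cE at r1; linarith
  have de2 : de D D' (l + 2) = -1 := by
    obtain ⟨-, r2, -⟩ := R (l + 2)
    rw [A2, de1, if_pos (by omega)] at r2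
    have e : l + 2 - 2 = l := by omega
    rw [e, Bl] at r2; linarith
  have c2 : di D D' (l + 2) = - db D D' (l + 2) + db D D' (l + 1) + 1 := by
    obtain ⟨-, -, r3⟩ := R (l + 2)
    have e : l + 2 - 1 = l + 1 := by omega
    rw [if_pos (by omega), B2, e, B1, hb] at r3
    unfold cC at r3; linarith
  have hm := S.hm (l + 1)
  -- both levels l + 1 are of type N
  have key : S.TN D (l + 1) ∧ S.TN D' (l + 1) ∧ db D D' (l + 1) = 0 := by
    unfold di db dk at *
    rcases five (h1 (l + 1) (by omega)) with ⟨b1, b2, b3⟩ | ⟨b1, b2, b3⟩ | hN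
    · exfalso
      rw [b1, b3] at c1
      cases hbe : be (D' (l + 1)) <;> cases hio : io (D' (l + 1)) <;>
        rw [hbe, hio] at c1 <;> simp at c1
    · exfalso
      rcases five (h2 (l + 1) (by omega)) with ⟨b1', b2', b3'⟩ | ⟨b1', b2', b3'⟩ | hN'
      · rw [b1, b3, b1', b3'] at c1; simp at c1
      · rw [b1, b3, b1', b3'] at c1; simp at c1
      · rcases hN' with ⟨x1, x2⟩ | ⟨x1, x2⟩
        · rw [b1, b2, x1, x2] at e1
          simp at e1
        · rw [b1, b2, x1] at e1
          simp at e1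
          omega
    · refine ⟨hN, ?_⟩
      rcases five (h2 (l + 1) (by omega)) with ⟨b1', b2', b3'⟩ | ⟨b1', b2', b3'⟩ | hN'
      · exfalso
        rcases hN with ⟨x1, x2⟩ | ⟨x1, x2⟩
        · rw [x1, x2, b1', b2'] at e1; simp at e1
        · rw [x1, b1', b2'] at e1; simp at e1; omega
      · exfalso
        rcases hN with ⟨x1, x2⟩ | ⟨x1, x2⟩
        · rw [x1, x2, b1', b2'] at e1
          rw [x1, b1', b3'] at c1
          cases hio : io (D (l + 1)) <;> rw [hio] at c1 <;> simp at c1
        · rw [x1, b1', b2'] at e1; simp at e1; omega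
      · refine ⟨hN', ?_⟩
        rcases hN with ⟨x1, x2⟩ | ⟨x1, x2⟩ <;> rcases hN' with ⟨y1, y2⟩ | ⟨y1, y2⟩
        · rw [x1, y1]; simp
        · exfalso
          rw [x1, y1] at c1
          cases hio : io (D (l + 1)) <;> cases hio' : io (D' (l + 1)) <;>
            rw [hio, hio'] at c1 <;> simp at c1
        · exfalso
          rw [x1, y1, y2] at e1
          simp at e1
          omega
        · rw [x1, y1]; simp
  obtain ⟨hN, hN', hb1⟩ := key
  have n1 := next_N (h1 (l + 1) (by omega)) (h1 (l + 2) (by omega)) hN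
  have n2 := next_N (h2 (l + 1) (by omega)) (h2 (l + 2) (by omega)) hN'
  have e2 : l + 1 + 1 = l + 2 := rfl
  rw [e2] at n1 n2
  rw [hb1] at c2
  unfold de at de2
  unfold di db at c2
  rcases n1 with n1 | n1 <;> rcases n2 with n2 | n2
  · rw [n1.2.2.2, n2.2.2.2] at de2; simp at de2
  · rw [n1.2.2.2, n2.2.2.2] at de2; simp at de2
  · rw [n1.1, n1.2.2.1, n2.1, n2.2.2.1] at c2; simp at c2
  · rw [n1.2.2.2, n2.2.2.2] at de2; simp at de2

lemma iv_pos {x y : Bool} (h : 0 < iv x - iv y) : iv x - iv y = 1 := by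
  cases x <;> cases y <;> simp at h ⊢

lemma db_swap (D D' : S.Pat) (n : ℕ) : db D' D n = - db D D' n := by unfold db; ring

lemma noPair_spe (hS : S.Spe) : S.NoPair := by
  intro D D' l hT hlt h1 h2
  rcases lt_trichotomy (db D D' l) 0 with hb | hb | hb
  · exfalso
    have : db D' D l = 1 := by
      have h0 : 0 < db D' D l := by rw [db_swap]; linarith
      exact iv_pos h0
    exact spe_core hS hT.symm (fun n hn => (hlt n hn).symm) h2 h1 this
  · obtain ⟨M, a, c, hE⟩ := evC_of_rig (N := l + 1) (fun n hn => h1 n (by omega))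
    obtain ⟨M', a', c', hE'⟩ := evC_of_rig (N := l + 1) (fun n hn => h2 n (by omega))
    have R := spe_rel hS (M := max M M') (fun n hn => hE n (le_trans (le_max_left _ _) hn))
      (fun n hn => hE' n (le_trans (le_max_right _ _) hn)) hT
    have dz : ∀ n, n < l → de D D' n = 0 ∧ db D D' n = 0 := fun n hn =>
      ⟨(fd_zero (hlt n hn)).1, (fd_zero (hlt n hn)).2.2.1⟩
    have Bz : ∀ n, n ≤ l → cB D D' n = 0 := by
      intro n hn
      have hdn : db D D' n = 0 := by
        rcases Nat.lt_or_ge n l with h0 | h0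
        · exact (dz n h0).2
        · have : n = l := by omega
          rw [this, hb]
      unfold cB
      rcases Nat.eq_zero_or_pos n with h0 | h0
      · rw [if_pos h0, hdn]; ring
      · rw [if_neg (by omega), hdn, (dz (n - 1) (by omega)).2]; ring
    have Al : cA D D' l = de D D' l := by
      unfold cA
      rcases Nat.eq_zero_or_pos l with h0 | h0
      · rw [if_pos h0]; ring
      · rw [if_neg (by omega), (dz (l - 1) (by omega)).1]; ring
    obtain ⟨r1, r2, r3⟩ := R l
    have del : de D D' l = 0 := by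
      rw [Al] at r2
      rcases Nat.lt_or_ge l 2 with h0 | h0
      · rw [if_neg (by omega)] at r2; linarith
      · rw [if_pos h0, Bz (l - 2) (by omega)] at r2; linarith
    have dil : di D D' l = 0 := by
      rw [Bz l le_rfl] at r3
      unfold cC at r3
      rcases Nat.lt_or_ge l 1 with h0 | h0
      · rw [if_neg (by omega)] at r3; linarith
      · rw [if_pos h0, Bz (l - 1) (by omega)] at r3; linarith
    have dkl : dk D D' l = 0 := by
      unfold cE at r1; rw [hb] at r1; linarith
    exact fd_eq_of del dil hb dkl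
  · exfalso
    have : db D D' l = 1 := iv_pos hb
    exact spe_core hS hT hlt h1 h2 this

end Sys

end Pool.Agent.Helper752.Card
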