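import Pool.Agent.Helper752.Card.Rel

set_option autoImplicit false
set_option linter.unusedSimpArgs false

open Finset Filter Topology

namespace Pool.Agent.Helper752.Card

section nominal

variable (m : ℕ → ℕ)

noncomputable def PP : ℕ → ℝ
  | 0 => 1
  | n + 1 => PP n / (2 * (m n : ℝ) + 13 / 2)

noncomputable def EN (n : ℕ) : ℝ := PP m (n + 2) + PP m (n + 4) / 4
noncomputable def WW (n : ℕ) : ℝ := PP m (n + 1) + EN m n / (2 * ((m n : ℝ) + 2))
noncomputable def HH (n : ℕ) : ℝ := PP m n / 2 - 3 / 4 * PP m (n + 1) - 1 / 4 * PP m (n + 2)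
noncomputable def dl (n : ℕ) : ℝ :=
  PP m (n + 2) / (300 * ((m n : ℝ) + 2) * ((m (n - 1) : ℝ) + 2))

lemma PP_pos (n : ℕ) : 0 < PP m n := by
  induction n with
  | zero => simp [PP]
  | succ n ih => unfold PP; positivity

lemma PP_eq (n : ℕ) : PP m n = 2 * ((m n : ℝ) * PP m (n + 1)) + 13 / 2 * PP m (n + 1) := by
  have h : (2 * (m n : ℝ) + 13 / 2) ≠ 0 := by positivity
  have : PP m (n + 1) = PP m n / (2 * (m n : ℝ) + 13 / 2) := rfl
  rw [this]; field_simp

variable {m} (hm : ∀ n, 1 ≤ m n)

include hm in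
lemma mP (n k : ℕ) : PP m k ≤ (m n : ℝ) * PP m k := by
  have h1 : (1 : ℝ) ≤ m n := by exact_mod_cast hm n
  nlinarith [PP_pos m k]

include hm in
lemma PP_ge (n : ℕ) : 17 / 2 * PP m (n + 1) ≤ PP m n := by
  rw [PP_eq m n]; have := mP hm n (n + 1); linarith

lemma EN_pos (n : ℕ) : 0 < EN m n := by
  unfold EN; have := PP_pos m (n + 2); have := PP_pos m (n + 4); positivity

lemma WW_mul (n : ℕ) : ((m n : ℝ) + 2) * WW m n = ((m n : ℝ) + 2) * PP m (n + 1) + EN m n / 2 := by
  unfold WW
  have h : ((m n : ℝ) + 2) ≠ 0 := by positivity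
  field_simp

include hm in
lemma WW_le (n : ℕ) : WW m n ≤ PP m (n + 1) + EN m n / 6 := by
  unfold WW
  have h1 : (1 : ℝ) ≤ m n := by exact_mod_cast hm n
  have h2 := EN_pos (m := m) n
  have : EN m n / (2 * ((m n : ℝ) + 2)) ≤ EN m n / 6 := by
    apply div_le_div_of_nonneg_left h2.le (by norm_num) (by linarith)
  linarith

lemma WW_gt (n : ℕ) : PP m (n + 1) < WW m n := by
  unfold WW
  have h2 := EN_pos (m := m) n
  have : 0 < EN m n / (2 * ((m n : ℝ) + 2)) := by positivity
  linarith

lemma dl_pos (n : ℕ) : 0 < dl m n := by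
  unfold dl; have := PP_pos m (n + 2); positivity

include hm in
lemma dl_mul (n : ℕ) : ((m n : ℝ) + 2) * dl m n ≤ PP m (n + 2) / 900 := by
  have h1 : (1 : ℝ) ≤ m (n - 1) := by exact_mod_cast hm (n - 1)
  have h2 := PP_pos m (n + 2)
  have e : ((m n : ℝ) + 2) * dl m n = PP m (n + 2) / (300 * ((m (n - 1) : ℝ) + 2)) := by
    unfold dl
    have h : ((m n : ℝ) + 2) ≠ 0 := by positivity
    have h' : ((m (n - 1) : ℝ) + 2) ≠ 0 := by positivity
    field_simp
  rw [e]
  apply div_le_div_of_nonneg_left h2.le (by norm_num) (by linarith)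

include hm in
lemma dl_mul' (n : ℕ) : ((m n : ℝ) + 2) * dl m (n + 1) ≤ PP m (n + 3) / 900 := by
  have h1 : (1 : ℝ) ≤ m (n + 1) := by exact_mod_cast hm (n + 1)
  have h2 := PP_pos m (n + 3)
  have e : ((m n : ℝ) + 2) * dl m (n + 1) = PP m (n + 3) / (300 * ((m (n + 1) : ℝ) + 2)) := by
    unfold dl
    rw [Nat.add_sub_cancel]
    have h : ((m n : ℝ) + 2) ≠ 0 := by positivity
    have h' : ((m (n + 1) : ℝ) + 2) ≠ 0 := by positivity
    field_simp
  rw [e]
  apply div_le_div_of_nonneg_left h2.le (by norm_num) (by linarith)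

include hm in
lemma dl_le (n : ℕ) : dl m n ≤ PP m (n + 2) / 2700 := by
  have h1 : (1 : ℝ) ≤ m n := by exact_mod_cast hm n
  have h2 := dl_mul hm n
  have h3 := dl_pos (m := m) n
  nlinarith

include hm in
lemma HH_pos (n : ℕ) : 0 < HH m n := by
  unfold HH
  have := PP_ge hm n; have := PP_ge hm (n + 1); have := PP_pos m (n + 1); have := PP_pos m (n + 2)
  linarith

include hm in
lemma PP_tendsto : Tendsto (PP m) atTop (𝓝 0) := by
  have h1 : ∀ n, PP m n ≤ (2 / 17 : ℝ) ^ n := by
    intro n
    induction n with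
    | zero => simp [PP]
    | succ n ih => rw [pow_succ]; have := PP_ge hm n; linarith
  exact squeeze_zero (fun n => (PP_pos m n).le) h1
    (tendsto_pow_atTop_nhds_zero_of_lt_one (by norm_num) (by norm_num))

end nominal

/-- the system with given parameters. -/
noncomputable def mkSys (m : ℕ → ℕ) (hm : ∀ n, 1 ≤ m n) (p h w x : ℕ → ℝ)
    (hp : ∀ n, PP m n < p n ∧ p n < PP m n + dl m n)
    (hh : ∀ n, HH m n < h n ∧ h n < HH m n + dl m n)
    (hw : ∀ n, WW m n < w n ∧ w n < WW m n + dl m n)
    (hx : ∀ n, 0 ≤ x n ∧ x n < dl m n) : Sys := by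
  have hppos : ∀ n, 0 < p n := fun n => (PP_pos m n).trans (hp n).1
  have hhpos : ∀ n, 0 < h n := fun n => (HH_pos hm n).trans (hh n).1
  have hwpos : ∀ n, 0 < w n := fun n => ((PP_pos m (n + 1)).trans (WW_gt n)).trans (hw n).1
  have hrpos : ∀ n, 0 < 2 * h n + h (n + 1) + p (n + 2) + x n := by
    intro n
    have := hppos (n + 2); have := hhpos n; have := hhpos (n + 1); have := (hx n).1
    linarith
  have hc5 : ∀ n, (2 * h n + h (n + 1) + p (n + 2) + x n) + p (n + 1) < p n := by
    intro n
    have a1 := (hh n).2; have a2 := (hh (n + 1)).2; have a3 := (hp (n + 2)).2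
    have a4 := (hx n).2; have a5 := (hp (n + 1)).2; have a6 := (hp n).1
    have d0 := dl_le hm n; have d1 := dl_le hm (n + 1); have d2 := dl_le hm (n + 2)
    have q2 := PP_ge hm (n + 2); have q3 := PP_ge hm (n + 3)
    have r1 := PP_pos m (n + 3); have r2 := PP_pos m (n + 4); have r0 := PP_pos m (n + 2)
    unfold HH at a1 a2
    simp only [show n + 1 + 1 = n + 2 from rfl, show n + 1 + 2 = n + 3 from rfl,
      show n + 2 + 2 = n + 4 from rfl, show n + 2 + 1 = n + 3 from rfl,
      show n + 3 + 1 = n + 4 from rfl] at *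
    linarith
  have hp0 : Tendsto p atTop (𝓝 0) := by
    have h2 : ∀ n, p n ≤ 2 * PP m n := by
      intro n
      have := (hp n).2; have := dl_le hm n; have := PP_ge hm n; have := PP_ge hm (n + 1)
      have := PP_pos m (n + 2); have := PP_pos m (n + 1)
      simp only [show n + 1 + 1 = n + 2 from rfl] at *
      linarith
    have h3 := (PP_tendsto hm).const_mul 2
    rw [mul_zero] at h3
    exact squeeze_zero (fun n => (hppos n).le) h2 h3
  refine
    { m := m
      p := p
      r := fun n => 2 * h n + h (n + 1) + p (n + 2) + x n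
      h := h
      w := w
      hm := hm
      p0 := hp0
      r0 := squeeze_zero (fun n => (hrpos n).le)
        (fun n => by have := hc5 n; have := hppos (n + 1); linarith) hp0
      ppos := hppos
      rpos := hrpos
      wpos := hwpos
      c1 := ?_
      c2 := ?_
      c3 := ?_
      c4 := ?_
      c5 := hc5
      c6 := ?_
      c7 := ?_ }
  · intro n
    have a1 := (hh n).1; have a2 := (hh (n + 1)).2; have a3 := (hp (n + 2)).1
    have a4 := (hx n).1; have a5 := (hp (n + 3)).2; have a6 := (hh (n + 2)).2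
    have a7 := (hx (n + 1)).2; have a8 := (hw n).2
    have hM : (0 : ℝ) < (m n : ℝ) + 2 := by positivity
    have a9 : ((m n : ℝ) + 2) * w n < ((m n : ℝ) + 2) * PP m (n + 1) + EN m n / 2
        + PP m (n + 2) / 900 := by
      have b1 := WW_mul (m := m) n
      have b2 := dl_mul hm n
      nlinarith
    have d0 := dl_le hm n; have d1 := dl_le hm (n + 1); have d2 := dl_le hm (n + 2)
    have d3 := dl_le hm (n + 3)
    have q0 := PP_eq m n
    have q2 := PP_ge hm (n + 2); have q3 := PP_ge hm (n + 3); have q4 := PP_ge hm (n + 4)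
    have r1 := PP_pos m (n + 3); have r2 := PP_pos m (n + 4); have r0 := PP_pos m (n + 2)
    have r5 := PP_pos m (n + 5)
    unfold HH at a1 a2 a6
    unfold EN at a9
    simp only [show n + 1 + 1 = n + 2 from rfl, show n + 1 + 2 = n + 3 from rfl,
      show n + 2 + 2 = n + 4 from rfl, show n + 2 + 1 = n + 3 from rfl,
      show n + 3 + 1 = n + 4 from rfl, show n + 3 + 2 = n + 5 from rfl,
      show n + 4 + 1 = n + 5 from rfl] at *
    rw [add_mul] at a9
    linarith
  · intro n
    have a1 := (hh n).2; have a2 := (hh (n + 1)).1; have a3 := (hp (n + 2)).2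
    have a4 := (hx n).2; have a5 := (hp (n + 3)).1; have a6 := (hh (n + 2)).1
    have a7 := (hx (n + 1)).1; have a8 := (hw n).1
    have a10 := (hp (n + 1)).1; have a11 := (hh (n + 3)).1; have a12 := (hp (n + 4)).1
    have a13 := (hx (n + 2)).1
    have h1 : (1 : ℝ) ≤ m n := by exact_mod_cast hm n
    have hM : (0 : ℝ) < (m n : ℝ) + 2 := by positivity
    have a9 : ((m n : ℝ) + 1) * PP m (n + 1) + EN m n / 3 ≤ ((m n : ℝ) + 1) * w n := by
      have b1 := WW_mul (m := m) n
      have b3 := EN_pos (m := m) n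
      have b4 := WW_le hm n
      nlinarith
    have d0 := dl_le hm n; have d1 := dl_le hm (n + 1); have d2 := dl_le hm (n + 2)
    have d3 := dl_le hm (n + 3)
    have q0 := PP_eq m n
    have q2 := PP_ge hm (n + 2); have q3 := PP_ge hm (n + 3); have q4 := PP_ge hm (n + 4)
    have r1 := PP_pos m (n + 3); have r2 := PP_pos m (n + 4); have r0 := PP_pos m (n + 2)
    have r5 := PP_pos m (n + 5)
    unfold HH at a1 a2 a6 a11
    unfold EN at a9
    simp only [show n + 1 + 1 = n + 2 from rfl, show n + 1 + 2 = n + 3 from rfl,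
      show n + 2 + 2 = n + 4 from rfl, show n + 2 + 1 = n + 3 from rfl,
      show n + 3 + 1 = n + 4 from rfl, show n + 3 + 2 = n + 5 from rfl,
      show n + 4 + 1 = n + 5 from rfl] at *
    rw [add_mul, add_mul] at a9
    rw [add_mul]
    linarith
  · intro n
    have a1 := (hh n).1; have a2 := (hh (n + 1)).1; have a3 := (hp (n + 2)).1
    have a4 := (hx n).1; have a5 := (hp (n + 1)).1; have a6 := (hp n).2
    have d0 := dl_le hm n
    have q2 := PP_ge hm (n + 2)
    have r1 := PP_pos m (n + 3); have r0 := PP_pos m (n + 2)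
    unfold HH at a1 a2
    simp only [show n + 1 + 1 = n + 2 from rfl, show n + 1 + 2 = n + 3 from rfl,
      show n + 2 + 1 = n + 3 from rfl] at *
    linarith
  · intro n
    have a1 := (hp (n + 1)).2
    have a2 := (hw n).1
    have hM : (0 : ℝ) < (m n : ℝ) + 2 := by positivity
    have b1 := WW_mul (m := m) n
    have b2 := dl_mul' hm n
    have r1 := PP_pos m (n + 3); have r2 := PP_pos m (n + 4); have r0 := PP_pos m (n + 2)
    have q2 := PP_ge hm (n + 2)
    have c1 : ((m n : ℝ) + 2) * p (n + 1) < ((m n : ℝ) + 2) * w n := by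
      unfold EN at b1
      simp only [show n + 2 + 1 = n + 3 from rfl] at *
      nlinarith
    exact lt_of_mul_lt_mul_left c1 hM.le
  · intro n
    have a1 := (hw n).2
    have a2 := WW_le hm n
    have a3 := (hh (n + 1)).1; have a4 := (hp (n + 2)).1; have a5 := (hx n).1
    have a6 := (hp (n + 1)).1
    have d0 := dl_le hm n
    have q2 := PP_ge hm (n + 2); have q3 := PP_ge hm (n + 3); have q1 := PP_ge hm (n + 1)
    have r1 := PP_pos m (n + 3); have r2 := PP_pos m (n + 4); have r0 := PP_pos m (n + 2)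
    unfold EN at a2
    unfold HH at a3
    simp only [show n + 1 + 1 = n + 2 from rfl, show n + 1 + 2 = n + 3 from rfl,
      show n + 2 + 1 = n + 3 from rfl, show n + 3 + 1 = n + 4 from rfl] at *
    linarith
  · intro n
    have a1 := (hp (n + 2)).2; have a2 := (hx n).2; have a3 := (hh (n + 1)).1
    have a4 := (hh (n + 2)).1; have a5 := (hp (n + 3)).1; have a6 := (hx (n + 1)).1
    have b4 := HH_pos hm (n + 2)
    have d0 := dl_le hm n; have d2 := dl_le hm (n + 2)
    have q1 := PP_ge hm (n + 1); have q2 := PP_ge hm (n + 2); have q3 := PP_ge hm (n + 3)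
    have r1 := PP_pos m (n + 3); have r2 := PP_pos m (n + 4); have r0 := PP_pos m (n + 2)
    unfold HH at a3
    simp only [show n + 1 + 1 = n + 2 from rfl, show n + 1 + 2 = n + 3 from rfl,
      show n + 2 + 1 = n + 3 from rfl, show n + 3 + 1 = n + 4 from rfl,
      show n + 2 + 2 = n + 4 from rfl] at *
    linarith

end Pool.Agent.Helper752.Card
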