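import Pool.Agent.Helper752.Card.Ty

set_option autoImplicit false

open Finset Filter Topology

namespace Pool.Agent.Helper752.Card

def iv (x : Bool) : ℤ := if x = true then 1 else 0

@[simp] lemma iv_true : iv true = 1 := by simp [iv]
@[simp] lemma iv_false : iv false = 0 := by simp [iv]
lemma bv_iv (x : Bool) : bv x = (iv x : ℝ) := by cases x <;> simp
lemma iv_sub_eq {x y : Bool} (h : iv x - iv y = 0) : x = y := by
  cases x <;> cases y <;> simp at h ⊢

namespace Sys

variable {S : Sys}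

def de (D D' : S.Pat) (n : ℕ) : ℤ := iv (ee (D n)) - iv (ee (D' n))
def di (D D' : S.Pat) (n : ℕ) : ℤ := iv (io (D n)) - iv (io (D' n))
def db (D D' : S.Pat) (n : ℕ) : ℤ := iv (be (D n)) - iv (be (D' n))
def dk (D D' : S.Pat) (n : ℕ) : ℤ := (kk (D n) : ℤ) - kk (D' n)

def cA (D D' : S.Pat) (n : ℕ) : ℤ := de D D' n - (if n = 0 then 0 else de D D' (n - 1))
def cB (D D' : S.Pat) (n : ℕ) : ℤ := db D D' n - (if n = 0 then 0 else db D D' (n - 1))
def cC (D D' : S.Pat) (n : ℕ) : ℤ := di D D' n - db D D' n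
def cE (D D' : S.Pat) (n : ℕ) : ℤ := dk D D' n - S.m n * db D D' n

lemma T_head_sum (D : S.Pat) (N : ℕ) : S.T D 0 = ∑ n ∈ range N, S.val n (D n) + S.T D N := by
  induction N with
  | zero => simp
  | succ N ih => rw [sum_range_succ, ih, S.T_succ D N]; ring

lemma rel_aux (D D' : S.Pat) (N : ℕ) :
    ∑ n ∈ range N, (S.val n (D n) - S.val n (D' n)) + (de D D' N) * S.p N + (db D D' N) * S.r N
      = ∑ n ∈ range (N + 1), ((cA D D' n) * S.p n + (cB D D' n) * S.r n)
        + ∑ n ∈ range N, ((cC D D' n) * S.h n + (cE D D' n) * S.w n) := by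
  induction N with
  | zero => simp [cA, cB]
  | succ N ih =>
    rw [sum_range_succ, sum_range_succ (fun n => ((cA D D' n : ℝ)) * S.p n + (cB D D' n) * S.r n),
      sum_range_succ (fun n => ((cC D D' n : ℝ)) * S.h n + (cE D D' n) * S.w n)]
    have h1 : S.val N (D N) - S.val N (D' N) =
        (de D D' N) * (S.p N - S.p (N + 1)) + (db D D' N) * (S.r N - S.r (N + 1))
        + (cC D D' N) * S.h N + (cE D D' N) * S.w N := by
      rw [S.val_eq, S.val_eq]
      unfold fv de db cC cE di db dk g b Z Y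
      simp only [bv_iv]
      push_cast
      ring
    have h2 : ((cA D D' (N + 1) : ℤ) : ℝ) = de D D' (N + 1) - de D D' N := by
      unfold cA; simp
    have h3 : ((cB D D' (N + 1) : ℤ) : ℝ) = db D D' (N + 1) - db D D' N := by
      unfold cB; simp
    rw [h2, h3, h1]
    linear_combination ih

lemma rel {D D' : S.Pat} {M : ℕ} {a c a' c' : Bool} (h : S.EvC D M a c) (h' : S.EvC D' M a' c')
    (hT : S.T D 0 = S.T D' 0) (N : ℕ) (hN : M + 1 ≤ N) :
    ∑ n ∈ range N, ((cA D D' n : ℝ) * S.p n + (cB D D' n) * S.r n + (cC D D' n) * S.h n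
      + (cE D D' n) * S.w n) = 0 := by
  obtain ⟨K, rfl⟩ : ∃ K, N = K + 1 := ⟨N - 1, by omega⟩
  have hK : M ≤ K := by omega
  have hE : S.EvC D K a c := fun n hn => h n (by omega)
  have hE' : S.EvC D' K a' c' := fun n hn => h' n (by omega)
  have t1 := T_evC hE
  have t2 := T_evC hE'
  have h1 := T_head_sum D K
  have h2 := T_head_sum D' K
  have h3 := rel_aux D D' K
  rw [sum_sub_distrib] at h3
  obtain ⟨k1, k2, k3, k4⟩ := h K hK
  obtain ⟨k1', k2', k3', k4'⟩ := h' K hK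
  have e1 : ((de D D' K : ℤ) : ℝ) = bv a - bv a' := by
    unfold de; rw [k1, k1', bv_iv, bv_iv]; push_cast; ring
  have e2 : ((db D D' K : ℤ) : ℝ) = bv c - bv c' := by
    unfold db; rw [k3, k3', bv_iv, bv_iv]; push_cast; ring
  have e3 : cC D D' K = 0 := by
    unfold cC di db; rw [k2, k2', k3, k3']; ring
  have e4 : cE D D' K = 0 := by
    unfold cE dk db; rw [k4, k4', k3, k3']
    cases c <;> cases c' <;> simp
  have e5 : ∑ n ∈ range (K + 1), ((cA D D' n : ℝ) * S.p n + (cB D D' n) * S.r n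
      + (cC D D' n) * S.h n + (cE D D' n) * S.w n)
      = ∑ n ∈ range (K + 1), ((cA D D' n : ℝ) * S.p n + (cB D D' n) * S.r n)
        + ∑ n ∈ range K, ((cC D D' n : ℝ) * S.h n + (cE D D' n) * S.w n) := by
    have : ∑ n ∈ range K, ((cC D D' n : ℝ) * S.h n + (cE D D' n) * S.w n)
        = ∑ n ∈ range (K + 1), ((cC D D' n : ℝ) * S.h n + (cE D D' n) * S.w n) := by
      rw [sum_range_succ, e3, e4]; simp
    rw [this, ← sum_add_distrib]
    apply sum_congr rfl
    intro n _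
    ring
  rw [e5, ← h3, e1, e2]
  rw [t1] at h1
  rw [t2] at h2
  linarith

/-- independence of all four families. -/
def Gen (S : Sys) : Prop :=
  ∀ (N : ℕ) (A B C E : ℕ → ℤ),
    ∑ n ∈ range N, ((A n : ℝ) * S.p n + (B n) * S.r n + (C n) * S.h n + (E n) * S.w n) = 0 →
    ∀ n, n < N → A n = 0 ∧ B n = 0 ∧ C n = 0 ∧ E n = 0

/-- the special relation with independence of three families. -/
def Spe (S : Sys) : Prop :=
  (∀ n, S.r n = 2 * S.h n + S.h (n + 1) + S.p (n + 2)) ∧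
  ∀ (N : ℕ) (A C E : ℕ → ℤ),
    ∑ n ∈ range N, ((A n : ℝ) * S.p n + (C n) * S.h n + (E n) * S.w n) = 0 →
    ∀ n, n < N → A n = 0 ∧ C n = 0 ∧ E n = 0

lemma fd_eq_of {D D' : S.Pat} {n : ℕ} (h1 : de D D' n = 0) (h2 : di D D' n = 0)
    (h3 : db D D' n = 0) (h4 : dk D D' n = 0) : fd (D n) = fd (D' n) := by
  unfold de at h1; unfold di at h2; unfold db at h3; unfold dk at h4
  have k1 := iv_sub_eq h1
  have k2 := iv_sub_eq h2
  have k3 := iv_sub_eq h3
  have k4 : kk (D n) = kk (D' n) := by omega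
  unfold fd
  rw [k1, k2, k3, k4]

lemma gen_same (hG : S.Gen) {D D' : S.Pat} {M : ℕ} {a c a' c' : Bool} (h : S.EvC D M a c)
    (h' : S.EvC D' M a' c') (hT : S.T D 0 = S.T D' 0) (n : ℕ) : fd (D n) = fd (D' n) := by
  have hz : ∀ k, cA D D' k = 0 ∧ cB D D' k = 0 ∧ cC D D' k = 0 ∧ cE D D' k = 0 := by
    intro k
    exact hG (M + k + 1) _ _ _ _ (rel h h' hT (M + k + 1) (by omega)) k (by omega)
  have he : ∀ k, de D D' k = 0 ∧ db D D' k = 0 := by
    intro k
    induction k with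
    | zero =>
      have h1 := (hz 0).1; have h2 := (hz 0).2.1
      unfold cA at h1; unfold cB at h2
      rw [if_pos rfl, sub_zero] at h1 h2
      exact ⟨h1, h2⟩
    | succ k ih =>
      have h1 := (hz (k + 1)).1; have h2 := (hz (k + 1)).2.1
      unfold cA at h1; unfold cB at h2
      simp only [Nat.add_eq_zero_iff, one_ne_zero, and_false, if_false, Nat.add_sub_cancel] at h1 h2
      rw [ih.1] at h1; rw [ih.2] at h2
      exact ⟨by linarith, by linarith⟩
  obtain ⟨h1, h2⟩ := he n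
  obtain ⟨-, -, h3, h4⟩ := hz n
  unfold cC at h3; unfold cE at h4
  rw [h2] at h3 h4
  exact fd_eq_of h1 (by linarith) h2 (by linarith)

/-- relations in the special case. -/
lemma spe_rel (hS : S.Spe) {D D' : S.Pat} {M : ℕ} {a c a' c' : Bool} (h : S.EvC D M a c)
    (h' : S.EvC D' M a' c') (hT : S.T D 0 = S.T D' 0) (n : ℕ) :
    cE D D' n = 0 ∧ cA D D' n + (if 2 ≤ n then cB D D' (n - 2) else 0) = 0 ∧
      cC D D' n + 2 * cB D D' n + (if 1 ≤ n then cB D D' (n - 1) else 0) = 0 := by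
  obtain ⟨hr, hI⟩ := hS
  set N := M + n + 5 with hN
  have hB0 : ∀ k, M < k → cB D D' k = 0 := by
    intro k hk
    obtain ⟨-, -, k3, -⟩ := h k (by omega)
    obtain ⟨-, -, k3', -⟩ := h' k (by omega)
    obtain ⟨-, -, l3, -⟩ := h (k - 1) (by omega)
    obtain ⟨-, -, l3', -⟩ := h' (k - 1) (by omega)
    unfold cB db
    rw [if_neg (by omega), k3, k3', l3, l3']; ring
  have h1 := rel h h' hT N (by omega)
  have sh1 : ∑ k ∈ range N, (cB D D' k : ℝ) * S.h (k + 1)
      = ∑ k ∈ range N, ((if 1 ≤ k then cB D D' (k - 1) else 0 : ℤ) : ℝ) * S.h k := by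
    have e1 : ∑ k ∈ range (N + 1), ((if 1 ≤ k then cB D D' (k - 1) else 0 : ℤ) : ℝ) * S.h k
        = ∑ k ∈ range N, (cB D D' k : ℝ) * S.h (k + 1) := by
      rw [sum_range_succ']
      simp
    rw [← e1, sum_range_succ]
    have : (if 1 ≤ N then cB D D' (N - 1) else 0 : ℤ) = 0 := by
      rw [if_pos (by omega)]; exact hB0 _ (by omega)
    rw [this]; simp
  have sh2 : ∑ k ∈ range N, (cB D D' k : ℝ) * S.p (k + 2)
      = ∑ k ∈ range N, ((if 2 ≤ k then cB D D' (k - 2) else 0 : ℤ) : ℝ) * S.p k := by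
    have e1 : ∑ k ∈ range (N + 1 + 1), ((if 2 ≤ k then cB D D' (k - 2) else 0 : ℤ) : ℝ) * S.p k
        = ∑ k ∈ range N, (cB D D' k : ℝ) * S.p (k + 2) := by
      rw [sum_range_succ', sum_range_succ']
      simp
    rw [← e1, sum_range_succ, sum_range_succ]
    have : (if 2 ≤ N then cB D D' (N - 2) else 0 : ℤ) = 0 := by
      rw [if_pos (by omega)]; exact hB0 _ (by omega)
    have h3 : (if 2 ≤ N + 1 then cB D D' (N + 1 - 2) else 0 : ℤ) = 0 := by
      rw [if_pos (by omega)]; exact hB0 _ (by omega)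
    rw [this, h3]; simp
  have h2 : ∑ k ∈ range N, (((cA D D' k + (if 2 ≤ k then cB D D' (k - 2) else 0) : ℤ) : ℝ) * S.p k
      + ((cC D D' k + 2 * cB D D' k + (if 1 ≤ k then cB D D' (k - 1) else 0) : ℤ) : ℝ) * S.h k
      + (cE D D' k) * S.w k) = 0 := by
    have e2 : ∑ k ∈ range N, ((cA D D' k : ℝ) * S.p k + (cB D D' k) * S.r k + (cC D D' k) * S.h k
        + (cE D D' k) * S.w k)
        = ∑ k ∈ range N, ((cA D D' k : ℝ) * S.p k) + ∑ k ∈ range N, 2 * ((cB D D' k : ℝ) * S.h k)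
          + ∑ k ∈ range N, (cB D D' k : ℝ) * S.h (k + 1)
          + ∑ k ∈ range N, (cB D D' k : ℝ) * S.p (k + 2)
          + ∑ k ∈ range N, ((cC D D' k : ℝ) * S.h k) + ∑ k ∈ range N, (cE D D' k : ℝ) * S.w k := by
      rw [← sum_add_distrib, ← sum_add_distrib, ← sum_add_distrib, ← sum_add_distrib,
        ← sum_add_distrib]
      apply sum_congr rfl
      intro k _
      rw [hr k]; ring
    rw [e2, sh1, sh2] at h1
    rw [← h1, ← sum_add_distrib, ← sum_add_distrib, ← sum_add_distrib, ← sum_add_distrib,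
        ← sum_add_distrib]
    apply sum_congr rfl
    intro k _
    push_cast
    ring
  obtain ⟨k1, k2, k3⟩ := hI N _ _ _ h2 n (by omega)
  exact ⟨k3, k1, k2⟩

end Sys

end Pool.Agent.Helper752.Card
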