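import Pool.Agent.Helper752.Card.Count

set_option autoImplicit false

open Finset Filter Topology Cardinal

namespace Pool.Agent.Helper752.Card

namespace Sys

variable {S : Sys}

lemma p_lt (n : ℕ) : S.p (n + 1) < S.p n := by
  have := S.gpos n; unfold g at this; linarith

lemma p_anti : Antitone S.p := antitone_nat_of_succ_le (fun n => (p_lt n).le)

lemma nonempty_Cls {t : ℝ} (h0 : 0 ≤ t) (h1 : t ≤ S.s 0) : (S.Cls t).Nonempty := by
  obtain ⟨D, -, hD⟩ := S.fill (fun _ _ => false) 0 t h0 h1
  exact ⟨D, hD⟩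

lemma empty_Cls {t : ℝ} (h : t < 0) : S.Cls t = ∅ := by
  rw [Set.eq_empty_iff_forall_notMem]
  intro D hD
  have := S.T_nonneg D 0
  have : S.T D 0 = t := hD
  linarith

lemma zero_Cls : #(S.Cls 0) = 1 := by
  obtain ⟨D, hD⟩ := nonempty_Cls (S := S) (t := 0) le_rfl (S.spos 0).le
  have key : ∀ E ∈ S.Cls (0 : ℝ), ∀ n, S.T E n = 0 ∧ fd (E n) = (false, false, false, 0) := by
    intro E hE n
    induction n with
    | zero =>
      have h0 : S.T E 0 = 0 := hE
      exact ⟨h0, (small (by rw [h0]; exact S.wpos 0)).1⟩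
    | succ n ih =>
      have h1 := (small (D := E) (n := n) (by rw [ih.1]; exact S.wpos n)).2
      rw [ih.1] at h1
      exact ⟨h1, (small (by rw [h1]; exact S.wpos _)).1⟩
  have hk : ∀ n, kk (D n) = 0 := by
    intro n
    have := (key D hD n).2
    unfold fd at this
    simp only [Prod.mk.injEq] at this
    exact this.2.2.2
  rw [count_eq hD (fun E hE n => (key E hE n).2.trans (key D hD n).2.symm) 0 (fun n _ => Or.inl (hk n)),
    hk 0]
  simp

lemma mfold_Cls (n : ℕ) : #(S.Cls (S.w n + S.p (n + 1))) = ((S.m n : ℕ) : Cardinal) := by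
  set t := S.w n + S.p (n + 1) with ht
  obtain ⟨i1, i2, i3, i4, i5, i6, i7, i8, i9, i10⟩ := S.ineqs n
  have htp : t < S.p n := by
    have hg : S.p n = S.g n + S.p (n + 1) := by unfold g; ring
    linarith
  have hlt : ∀ i, i < n → t < S.w i := by
    intro i hi
    have h1 := S.c4 i
    have h2 : S.p n ≤ S.p (i + 1) := p_anti (by omega)
    linarith
  have hT1 : ∀ E ∈ S.Cls t, ∀ i, i ≤ n → S.T E i = t := by
    intro E hE i
    induction i with
    | zero => intro _; exact hE
    | succ i ih =>
      intro hi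
      have h1 := ih (by omega)
      rw [(small (D := E) (n := i) (by rw [h1]; exact hlt i (by omega))).2, h1]
  have hfd1 : ∀ E ∈ S.Cls t, ∀ i, i < n → fd (E i) = (false, false, false, 0) := by
    intro E hE i hi
    exact (small (by rw [hT1 E hE i hi.le]; exact hlt i hi)).1
  have hmid : ∀ E ∈ S.Cls t, fd (E n) = (false, false, false, 1) ∧ S.T E (n + 1) = S.p (n + 1) := by
    intro E hE
    have h0 := hT1 E hE n le_rfl
    obtain ⟨p1, p2, p3, p4⟩ := S.parts_nonneg n E
    have hT := S.T_nonneg E (n + 1)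
    have hT2 := S.T_le E (n + 1)
    have hE := S.T_expand E n
    have hb := S.beq n
    have het := S.et_pos n
    rw [h0] at hE
    have h1 : ee (E n) = false := bv_false_of (a := S.g n) (t := t) (by linarith) (by linarith)
    have h2 : io (E n) = false := bv_false_of (a := S.h n) (t := t) (by linarith) (by linarith)
    have h3 : be (E n) = false := bv_false_of (a := S.b n) (t := t) (by linarith) (by linarith)
    rw [h1, h2, h3] at hE
    simp only [bv_false, zero_mul, zero_add] at hE
    have h4 : kk (E n) = 1 := by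
      rcases Nat.lt_trichotomy (kk (E n)) 1 with h | h | h
      · have : kk (E n) = 0 := by omega
        rw [this] at hE
        simp at hE
        linarith
      · exact h
      · have h5 : (2 : ℝ) ≤ kk (E n) := by exact_mod_cast h
        nlinarith
    rw [h4] at hE
    unfold fd
    rw [h1, h2, h3, h4]
    exact ⟨rfl, by push_cast at hE; linarith⟩
  have hhi : ∀ E ∈ S.Cls t, ∀ i, n < i → fd (E i) = (true, false, false, 0) := by
    intro E hE i hi
    exact (all_stepA (hmid E hE).2 i hi).2
  have same : ∀ E ∈ S.Cls t, ∀ F ∈ S.Cls t, ∀ i, fd (E i) = fd (F i) := by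
    intro E hE F hF i
    rcases Nat.lt_trichotomy i n with h | h | h
    · rw [hfd1 E hE i h, hfd1 F hF i h]
    · rw [h, (hmid E hE).1, (hmid F hF).1]
    · rw [hhi E hE i h, hhi F hF i h]
  obtain ⟨D, hD⟩ := nonempty_Cls (S := S) (t := t) (by linarith) (by
    have h1 : S.p n ≤ S.p 0 := p_anti (Nat.zero_le n)
    have h2 := S.rpos 0
    unfold s; linarith)
  have hk : ∀ i, i ≠ n → kk (D i) = 0 ∨ kk (D i) = S.m i := by
    intro i hi
    left
    rcases lt_or_gt_of_ne hi with h | h
    · have := hfd1 D hD i h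
      unfold fd at this; simp only [Prod.mk.injEq] at this; exact this.2.2.2
    · have := hhi D hD i h
      unfold fd at this; simp only [Prod.mk.injEq] at this; exact this.2.2.2
  rw [count_eq hD (fun E hE i => same E hE D hD i) n hk]
  have := (hmid D hD).1
  unfold fd at this
  simp only [Prod.mk.injEq] at this
  rw [this.2.2.2]; simp

/-! ### cardinalities of infinite classes -/

variable (S) in
lemma mk_Pat : #(S.Pat) ≤ 𝔠 := by
  have e : S.Pat ≃ ((Σ n, Slot (S.m n)) → Bool) :=
    (Equiv.piCurry (fun (n : ℕ) (_ : Slot (S.m n)) => Bool)).symm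
  rw [Cardinal.mk_congr e, ← Cardinal.power_def, Cardinal.mk_bool, ← Cardinal.two_power_aleph0]
  apply Cardinal.power_le_power_left two_ne_zero
  exact Cardinal.mk_le_aleph0

lemma card_unc {t : ℝ} (h : ¬ (S.Cls t).Countable) : #(S.Cls t) = 𝔠 := by
  apply le_antisymm
  · exact (Cardinal.mk_set_le _).trans S.mk_Pat
  · obtain ⟨f, hf1, -, hf2⟩ := (S.closed_Cls t).exists_nat_bool_injection_of_not_countable h
    rw [← mk_cantor]
    exact Cardinal.mk_le_of_injective (f := fun x => (⟨f x, hf1 ⟨x, rfl⟩⟩ : S.Cls t))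
      (fun x y hxy => hf2 (by simpa using hxy))

lemma card_inf {t : ℝ} (h : (S.Cls t).Infinite) : #(S.Cls t) = ℵ₀ ∨ #(S.Cls t) = 𝔠 := by
  by_cases hc : (S.Cls t).Countable
  · left
    have := hc.to_subtype
    have := h.to_subtype
    exact Cardinal.mk_eq_aleph0 _
  · right; exact card_unc hc

/-- values of the class sizes. -/
lemma values (hN : S.NoPair) (t : ℝ) :
    S.Cls t = ∅ ∨ #(S.Cls t) = 1 ∨ (∃ n, #(S.Cls t) = ((S.m n : ℕ) : Cardinal)) ∨
      (S.Cls t).Infinite := by
  rcases (S.Cls t).eq_empty_or_nonempty with h | ⟨D, hD⟩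
  · left; exact h
  right
  by_cases hu : ∀ D' ∈ S.Cls t, ∀ n, fd (D' n) = fd (D n)
  · rcases count_cases hD hu with h | h
    · left; exact h
    · right; left; exact h
  · push Not at hu
    obtain ⟨D', hD', n, hn⟩ := hu
    right; right
    exact inf_of_two hN hD' hD hn

lemma values_gen (hG : S.Gen) (t : ℝ) :
    #(S.Cls t) = 0 ∨ #(S.Cls t) = 1 ∨ (∃ n, #(S.Cls t) = ((S.m n : ℕ) : Cardinal)) ∨
      #(S.Cls t) = 𝔠 := by
  rcases (S.Cls t).eq_empty_or_nonempty with h | ⟨D, hD⟩
  · left; rw [h]; simp
  right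
  by_cases hu : ∀ D' ∈ S.Cls t, ∀ n, fd (D' n) = fd (D n)
  · rcases count_cases hD hu with h | h
    · left; exact h
    · right; left; exact h
  · push Not at hu
    obtain ⟨D', hD', n, hn⟩ := hu
    right; right
    exact card_unc (gen_unc hG hD' hD hn)

lemma values_spe (hS : S.Spe) (t : ℝ) :
    #(S.Cls t) = 0 ∨ #(S.Cls t) = 1 ∨ (∃ n, #(S.Cls t) = ((S.m n : ℕ) : Cardinal)) ∨
      #(S.Cls t) = ℵ₀ ∨ #(S.Cls t) = 𝔠 := by
  rcases values (noPair_spe hS) t with h | h | h | h
  · left; rw [h]; simp
  · right; left; exact h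
  · right; right; left; exact h
  · right; right; right
    exact card_inf h

/-- two representations of `w 0` with one, resp. no, copy of `w 0`. -/
lemma two_w0 : ∃ D ∈ S.Cls (S.w 0), ∃ D' ∈ S.Cls (S.w 0), be (D 0) = false ∧ kk (D 0) = 1 ∧
    be (D' 0) = false ∧ kk (D' 0) = 0 := by
  have hm := S.hm 0
  let D0 : S.Pat := Function.update (fun _ _ => false) 0 (mkd (S.m 0) false false false 1)
  let D1 : S.Pat := fun _ _ => false
  obtain ⟨D, hD1, hD2⟩ := S.fill D0 1 0 le_rfl (S.spos 1).le
  obtain ⟨D', hD1', hD2'⟩ := S.fill D1 1 (S.w 0) (S.wpos 0).le (S.w_le 0)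
  have e1 : D 0 = mkd (S.m 0) false false false 1 := by rw [hD1 0 (by omega)]; simp [D0]
  have e2 : D' 0 = fun _ => false := hD1' 0 (by omega)
  refine ⟨D, ?_, D', ?_, ?_, ?_, ?_, ?_⟩
  · show S.T D 0 = S.w 0
    rw [S.T_succ, hD2, e1, S.val_mkd 0 false false false hm]
    unfold fv; simp
  · show S.T D' 0 = S.w 0
    rw [S.T_succ, hD2', e2, S.val_eq]
    unfold fv ee io be kk; simp
  · rw [e1]; simp
  · rw [e1]; exact kk_mkd _ _ _ hm
  · rw [e2]; simp [be]
  · rw [e2]; simp [kk]

lemma w0_gen (hG : S.Gen) : #(S.Cls (S.w 0)) = 𝔠 := by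
  obtain ⟨D, hD, D', hD', h1, h2, h3, h4⟩ := two_w0 (S := S)
  apply card_unc
  apply gen_unc hG hD hD' (l := 0)
  unfold fd
  simp only [ne_eq, Prod.mk.injEq]
  rintro ⟨-, -, -, h⟩
  omega

lemma w0_spe (hS : S.Spe) : #(S.Cls (S.w 0)) = 𝔠 := by
  obtain ⟨D, hD, D', hD', h1, h2, h3, h4⟩ := two_w0 (S := S)
  apply card_unc
  apply spe_unc hS hD hD' (l := 0)
  unfold cE dk db
  rw [h1, h2, h3, h4]
  simp

/-! ### the countable class -/

lemma stepU (hS : S.Spe) {D : S.Pat} {n : ℕ} (h : S.T D n = S.h n + S.p (n + 1)) :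
    (fd (D n) = (false, true, false, 0) ∧ S.T D (n + 1) = S.p (n + 1)) ∨
    (fd (D n) = (false, false, true, S.m n) ∧
      S.T D (n + 1) = S.s (n + 1) - (S.h (n + 1) + S.p (n + 2))) := by
  obtain ⟨i1, i2, i3, i4, i5, i6, i7, i8, i9, i10⟩ := S.ineqs n
  obtain ⟨p1, p2, p3, p4⟩ := S.parts_nonneg n D
  have hT := S.T_nonneg D (n + 1)
  have hE := S.T_expand D n
  have h1 : ee (D n) = false := bv_false_of (a := S.g n) (t := S.T D n) (by linarith) (by linarith)
  rw [h1, h] at hE
  simp only [bv_false, zero_mul, zero_add] at hE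
  cases hio : io (D n) with
  | true =>
    left
    rw [hio] at hE
    simp only [bv_true, one_mul] at hE
    obtain ⟨h3, h4, h5⟩ := S.low (n := n) (t := S.p (n + 1)) (D := D) (by linarith) i5
    unfold fd
    rw [h1, hio, h3, h4]
    exact ⟨rfl, h5⟩
  | false =>
    right
    rw [hio] at hE
    simp only [bv_false, zero_mul, zero_add] at hE
    obtain ⟨h3, h4, h5⟩ := S.high (n := n) (t := S.h n + S.p (n + 1)) (D := D) (by linarith)
      (by linarith)
    unfold fd
    rw [h1, hio, h3, h4]
    refine ⟨rfl, ?_⟩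
    rw [h5]
    have hr := hS.1 n
    unfold Z Y s
    linarith

lemma stepV (hS : S.Spe) {D : S.Pat} {n : ℕ}
    (h : S.T D n = S.s n - (S.h n + S.p (n + 1))) :
    (fd (D n) = (true, false, true, S.m n) ∧ S.T D (n + 1) = S.r (n + 1)) ∨
    (fd (D n) = (true, true, false, 0) ∧ S.T D (n + 1) = S.h (n + 1) + S.p (n + 2)) := by
  obtain ⟨i1, i2, i3, i4, i5, i6, i7, i8, i9, i10⟩ := S.ineqs n
  obtain ⟨p1, p2, p3, p4⟩ := S.parts_nonneg n D
  have hT := S.T_nonneg D (n + 1)
  have hT2 := S.T_le D (n + 1)
  have hE := S.T_expand D n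
  have hs := S.s_eq n
  have hZ := S.Zeq n
  have hk : (kk (D n) : ℝ) ≤ S.m n := by exact_mod_cast kk_le (D n)
  have hkw : (kk (D n) : ℝ) * S.w n ≤ S.m n * S.w n := mul_le_mul_of_nonneg_right hk i8.le
  have h0 : S.T D n = S.g n + S.Z n + S.r (n + 1) := by rw [h]; linarith
  have h1 : ee (D n) = true := by
    cases hx : ee (D n) with
    | true => rfl
    | false =>
      exfalso
      rw [hx] at hE
      have hio : bv (io (D n)) * S.h n ≤ S.h n := by
        have := bv_le (io (D n)); have := S.hpos n; nlinarith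
      have hbe : bv (be (D n)) * S.b n ≤ S.b n := by
        have := bv_le (be (D n)); have := S.bpos n; nlinarith
      simp only [bv_false, zero_mul, zero_add] at hE
      linarith
  rw [h1, h0] at hE
  simp only [bv_true, one_mul] at hE
  cases hio : io (D n) with
  | false =>
    left
    rw [hio] at hE
    simp only [bv_false, zero_mul] at hE
    obtain ⟨h3, h4, h5⟩ := S.high (n := n) (t := S.Z n + S.r (n + 1)) (D := D) (by linarith)
      (by linarith)
    unfold fd
    rw [h1, hio, h3, h4]
    exact ⟨rfl, by rw [h5]; ring⟩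
  | true =>
    right
    rw [hio] at hE
    simp only [bv_true, one_mul] at hE
    obtain ⟨h3, h4, h5⟩ := S.low (n := n) (t := S.Z n + S.r (n + 1) - S.h n) (D := D) (by linarith)
      (by linarith)
    unfold fd
    rw [h1, hio, h3, h4]
    refine ⟨rfl, ?_⟩
    rw [h5]
    have hr := hS.1 n
    unfold Z Y
    linarith

lemma countable_ev (c : S.Pat) : {D : S.Pat | ∃ M, ∀ n, M ≤ n → D n = c n}.Countable := by
  have : {D : S.Pat | ∃ M, ∀ n, M ≤ n → D n = c n} =
      ⋃ M : ℕ, {D : S.Pat | ∀ n, M ≤ n → D n = c n} := by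
    ext D; simp
  rw [this]
  apply Set.countable_iUnion
  intro M
  have hinj : Function.Injective (fun (D : {D : S.Pat | ∀ n, M ≤ n → D n = c n}) =>
      (fun i : Fin M => D.1 i.val)) := by
    rintro ⟨D, hD⟩ ⟨D', hD'⟩ h
    apply Subtype.ext
    funext n
    rcases Nat.lt_or_ge n M with hn | hn
    · exact congrFun h ⟨n, hn⟩
    · show D n = D' n
      rw [hD n hn, hD' n hn]
  exact hinj.countable

lemma omega_Cls (hS : S.Spe) : #(S.Cls (S.h 0 + S.p 1)) = ℵ₀ := by
  set t := S.h 0 + S.p 1 with ht
  let Q : S.Pat → ℕ → Prop := fun D n => S.T D n = S.h n + S.p (n + 1) ∨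
    S.T D n = S.s n - (S.h n + S.p (n + 1))
  let cA : S.Pat := fun n => mkd (S.m n) true false false 0
  let cB : S.Pat := fun n => mkd (S.m n) false true true (S.m n)
  have hcount : (S.Cls t).Countable := by
    have hsub : S.Cls t ⊆ ({D : S.Pat | ∃ M, ∀ n, M ≤ n → D n = cA n} ∪
        {D : S.Pat | ∃ M, ∀ n, M ≤ n → D n = cB n}) ∪ {D : S.Pat | S.T D 0 = t ∧ ∀ n, Q D n} := by
      intro D hD
      by_cases hQ : ∀ n, Q D n
      · right; exact ⟨hD, hQ⟩
      · left
        push Not at hQ
        classical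
        have hex : ∃ n, ¬ Q D n := hQ
        have hf := Nat.find_spec hex
        have hmin : ∀ m, m < Nat.find hex → Q D m := by
          intro m hm
          have := Nat.find_min hex hm
          push Not at this
          exact this
        set k := Nat.find hex with hk
        have hk0 : k ≠ 0 := by
          intro h0
          apply hf
          rw [h0]
          left
          exact hD
        obtain ⟨j, hj⟩ : ∃ j, k = j + 1 := ⟨k - 1, by omega⟩
        have hQj := hmin j (by omega)
        rw [hj] at hf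
        have hAB : S.T D (j + 1) = S.p (j + 1) ∨ S.T D (j + 1) = S.r (j + 1) := by
          rcases hQj with h | h
          · rcases stepU hS h with ⟨-, h1⟩ | ⟨-, h1⟩
            · left; exact h1
            · exact absurd (Or.inr h1) hf
          · rcases stepV hS h with ⟨-, h1⟩ | ⟨-, h1⟩
            · right; exact h1
            · exact absurd (Or.inl h1) hf
        rcases hAB with h | h
        · left
          refine ⟨j + 1, fun n hn => ?_⟩
          have h1 := (all_stepA h n hn).2
          apply digits_det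
          · rw [h1]; exact (fd_mkd _ _ _ (Nat.zero_le _)).symm
          · left
            unfold fd at h1; simp only [Prod.mk.injEq] at h1; exact h1.2.2.2
        · right
          refine ⟨j + 1, fun n hn => ?_⟩
          have h1 := (all_stepB h n hn).2
          apply digits_det
          · rw [h1]; exact (fd_mkd _ _ _ le_rfl).symm
          · right
            unfold fd at h1; simp only [Prod.mk.injEq] at h1; exact h1.2.2.2
    have hsing : {D : S.Pat | S.T D 0 = t ∧ ∀ n, Q D n}.Subsingleton := by
      rintro D ⟨hD, hQ⟩ D' ⟨hD', hQ'⟩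
      -- the values p, r are not of type Q
      have hnA : ∀ (E : S.Pat) n, Q E n → S.T E n ≠ S.p n ∧ S.T E n ≠ S.r n := by
        intro E n hE
        obtain ⟨i1, i2, i3, i4, i5, i6, i7, i8, i9, i10⟩ := S.ineqs n
        have hp : S.p n = S.g n + S.p (n + 1) := by unfold g; ring
        have hr : S.r n = S.Y n + S.r (n + 1) := by unfold Y; ring
        have hs : S.s n = S.p n + S.r n := rfl
        rcases hE with hE | hE
        · rw [hE]
          exact ⟨by linarith, by linarith⟩
        · rw [hE, hs]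
          constructor
          · intro h; linarith
          · intro h; linarith
      have key : ∀ n, S.T D n = S.T D' n ∧ (∀ i, i < n → D i = D' i) := by
        intro n
        induction n with
        | zero => exact ⟨by rw [hD, hD'], fun i hi => absurd hi (by omega)⟩
        | succ n ih =>
          have n1 := hnA D (n + 1) (hQ (n + 1))
          have n2 := hnA D' (n + 1) (hQ' (n + 1))
          obtain ⟨f, hf1, hf2, c, hf3, hf4, hf5⟩ : ∃ f : ℝ, S.T D (n + 1) = f ∧ S.T D' (n + 1) = f ∧
              ∃ c, fd (D n) = c ∧ fd (D' n) = c ∧ (kk (D n) = 0 ∨ kk (D n) = S.m n) := by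
            rcases hQ n with h | h
            · have h' : S.T D' n = S.h n + S.p (n + 1) := by rw [← ih.1]; exact h
              rcases stepU hS h with ⟨-, h1⟩ | ⟨h0, h1⟩
              · exact absurd h1 n1.1
              rcases stepU hS h' with ⟨-, h2⟩ | ⟨h0', h2⟩
              · exact absurd h2 n2.1
              refine ⟨_, h1, h2, _, h0, h0', ?_⟩
              right
              unfold fd at h0; simp only [Prod.mk.injEq] at h0; exact h0.2.2.2
            · have h' : S.T D' n = S.s n - (S.h n + S.p (n + 1)) := by rw [← ih.1]; exact h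
              rcases stepV hS h with ⟨-, h1⟩ | ⟨h0, h1⟩
              · exact absurd h1 n1.2
              rcases stepV hS h' with ⟨-, h2⟩ | ⟨h0', h2⟩
              · exact absurd h2 n2.2
              refine ⟨_, h1, h2, _, h0, h0', ?_⟩
              left
              unfold fd at h0; simp only [Prod.mk.injEq] at h0; exact h0.2.2.2
          refine ⟨hf1.trans hf2.symm, ?_⟩
          intro i hi
          rcases Nat.lt_or_ge i n with h | h
          · exact ih.2 i h
          · have : i = n := by omega
            rw [this]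
            exact digits_det (hf3.trans hf4.symm) hf5
      funext i
      exact (key (i + 1)).2 i (by omega)
    exact (((countable_ev cA).union (countable_ev cB)).union hsing.countable).mono hsub
  have hinf : (S.Cls t).Infinite := by
    obtain ⟨i1, i2, i3, i4, i5, i6, i7, i8, i9, i10⟩ := S.ineqs 0
    have hm := S.hm 0
    let D0 : S.Pat := Function.update (fun _ _ => false) 0 (mkd (S.m 0) false true false 0)
    let D1 : S.Pat := Function.update (fun _ _ => false) 0 (mkd (S.m 0) false false true (S.m 0))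
    obtain ⟨D, hD1, hD2⟩ := S.fill D0 1 (S.p 1) (S.ppos 1).le (by
      have := S.rpos 1; unfold s; linarith)
    have hpos : 0 ≤ S.h 0 + S.p 1 - S.Z 0 := by
      have := S.ppos 1; linarith
    have hle : S.h 0 + S.p 1 - S.Z 0 ≤ S.s 1 := by
      have := S.h_le 0
      have h4 : S.p (0 + 1) < S.w 0 := i5
      have e1 : (0 : ℕ) + 1 = 1 := rfl
      rw [e1] at *
      linarith
    obtain ⟨D', hD1', hD2'⟩ := S.fill D1 1 (S.h 0 + S.p 1 - S.Z 0) hpos hle
    have e1 : D 0 = mkd (S.m 0) false true false 0 := by rw [hD1 0 (by omega)]; simp [D0]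
    have e2 : D' 0 = mkd (S.m 0) false false true (S.m 0) := by rw [hD1' 0 (by omega)]; simp [D1]
    have hDm : D ∈ S.Cls t := by
      show S.T D 0 = t
      rw [S.T_succ, hD2, e1, S.val_mkd 0 false true false (Nat.zero_le _)]
      unfold fv; simp [ht]
    have hDm' : D' ∈ S.Cls t := by
      show S.T D' 0 = t
      rw [S.T_succ, hD2', e2, S.val_mkd 0 false false true le_rfl]
      have hZ := S.Zeq 0
      unfold fv
      simp only [bv_true, bv_false]
      rw [ht]
      linarith
    apply inf_of_two (noPair_spe hS) hDm hDm' (l := 0)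
    rw [e1, e2, fd_mkd _ _ _ (Nat.zero_le _), fd_mkd _ _ _ le_rfl]
    simp
  have := hcount.to_subtype
  have := hinf.to_subtype
  exact Cardinal.mk_eq_aleph0 _

end Sys

end Pool.Agent.Helper752.Card
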