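import Mathlib

set_option autoImplicit false

open Finset Filter Topology

namespace Pool.Agent.Helper752.Card

/-- Parameters of a block system: `m n` copies of `w n`, and single elements `b n, h n, g n`. -/
structure Sys where
  m : ℕ → ℕ
  p : ℕ → ℝ
  r : ℕ → ℝ
  h : ℕ → ℝ
  w : ℕ → ℝ
  hm : ∀ n, 1 ≤ m n
  p0 : Tendsto p atTop (𝓝 0)
  r0 : Tendsto r atTop (𝓝 0)
  ppos : ∀ n, 0 < p n
  rpos : ∀ n, 0 < r n
  wpos : ∀ n, 0 < w n
  c1 : ∀ n, ((m n : ℝ) + 2) * w n < r n - r (n + 1) - h n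
  c2 : ∀ n, w n + (r n - r (n + 1) - h n - ((m n : ℝ) + 2) * w n) ≤ p (n + 1) + r (n + 2)
  c3 : ∀ n, p n ≤ r n + p (n + 1) + p (n + 2)
  c4 : ∀ n, p (n + 1) < w n
  c5 : ∀ n, r n + p (n + 1) < p n
  c6 : ∀ n, h n ≤ (r n - r (n + 1) - h n) + (p (n + 1) + r (n + 1)) - w n
  c7 : ∀ n, r n - r (n + 1) - h n < h n

abbrev Slot (k : ℕ) := Fin k ⊕ Fin 3

namespace Sys

variable (S : Sys)

abbrev Pat := ∀ n, Slot (S.m n) → Bool

noncomputable def g (n : ℕ) : ℝ := S.p n - S.p (n + 1)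
noncomputable def Y (n : ℕ) : ℝ := S.r n - S.r (n + 1)
noncomputable def Z (n : ℕ) : ℝ := S.Y n - S.h n
noncomputable def b (n : ℕ) : ℝ := S.Z n - (S.m n : ℝ) * S.w n
noncomputable def et (n : ℕ) : ℝ := S.b n - 2 * S.w n
noncomputable def s (n : ℕ) : ℝ := S.p n + S.r n

noncomputable def elt (n : ℕ) : Slot (S.m n) → ℝ :=
  Sum.elim (fun _ => S.w n) ![S.b n, S.h n, S.g n]

noncomputable def val (n : ℕ) (d : Slot (S.m n) → Bool) : ℝ :=
  ∑ i, if d i = true then S.elt n i else 0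

end Sys

/-- real value of a Boolean. -/
noncomputable def bv (x : Bool) : ℝ := if x = true then 1 else 0

@[simp] lemma bv_true : bv true = 1 := by simp [bv]
@[simp] lemma bv_false : bv false = 0 := by simp [bv]

def kk {k : ℕ} (d : Slot k → Bool) : ℕ := (univ.filter (fun i : Fin k => d (Sum.inl i) = true)).card
def be {k : ℕ} (d : Slot k → Bool) : Bool := d (Sum.inr 0)
def io {k : ℕ} (d : Slot k → Bool) : Bool := d (Sum.inr 1)
def ee {k : ℕ} (d : Slot k → Bool) : Bool := d (Sum.inr 2)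

lemma kk_le {k : ℕ} (d : Slot k → Bool) : kk d ≤ k := by
  unfold kk
  calc _ ≤ (univ : Finset (Fin k)).card := card_le_card (filter_subset _ _)
    _ = k := by simp

/-- digits with given formal data. -/
def mkd (k : ℕ) (e i b : Bool) (c : ℕ) : Slot k → Bool :=
  Sum.elim (fun j => decide (j.val < c)) ![b, i, e]

@[simp] lemma be_mkd (k : ℕ) (e i b : Bool) (c : ℕ) : be (mkd k e i b c) = b := by simp [be, mkd]
@[simp] lemma io_mkd (k : ℕ) (e i b : Bool) (c : ℕ) : io (mkd k e i b c) = i := by simp [io, mkd]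
@[simp] lemma ee_mkd (k : ℕ) (e i b : Bool) (c : ℕ) : ee (mkd k e i b c) = e := by simp [ee, mkd]

lemma kk_mkd {k : ℕ} (e i b : Bool) {c : ℕ} (hc : c ≤ k) : kk (mkd k e i b c) = c := by
  unfold kk mkd
  simp only [Sum.elim_inl, decide_eq_true_eq]
  rw [Fin.card_filter_val_lt]
  omega

/-- formal digits. -/
def fd {k : ℕ} (d : Slot k → Bool) : Bool × Bool × Bool × ℕ := (ee d, io d, be d, kk d)

lemma fd_mkd {k : ℕ} (e i b : Bool) {c : ℕ} (hc : c ≤ k) : fd (mkd k e i b c) = (e, i, b, c) := by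
  simp [fd, kk_mkd e i b hc]

namespace Sys

variable (S : Sys)

/-- formal value. -/
noncomputable def fv (n : ℕ) (e i b : Bool) (c : ℕ) : ℝ :=
  bv e * S.g n + bv i * S.h n + bv b * S.b n + (c : ℝ) * S.w n

lemma val_eq (n : ℕ) (d : Slot (S.m n) → Bool) :
    S.val n d = S.fv n (ee d) (io d) (be d) (kk d) := by
  unfold val elt fv
  rw [Fintype.sum_sum_type, Fin.sum_univ_three]
  simp only [Sum.elim_inl, Sum.elim_inr]
  rw [← Finset.sum_filter, Finset.sum_const]
  unfold kk be io ee bv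
  simp only [nsmul_eq_mul, Matrix.cons_val_zero, Matrix.cons_val_one, Matrix.cons_val]
  split_ifs <;> ring

lemma val_mkd (n : ℕ) (e i b : Bool) {c : ℕ} (hc : c ≤ S.m n) :
    S.val n (mkd (S.m n) e i b c) = S.fv n e i b c := by
  rw [val_eq]; simp [kk_mkd e i b hc]

/-! ### basic inequalities -/

lemma mpos (n : ℕ) : (1 : ℝ) ≤ S.m n := by exact_mod_cast S.hm n

lemma et_pos (n : ℕ) : 0 < S.et n := by
  have := S.c1 n
  unfold et b Z Y; nlinarith

lemma Zeq (n : ℕ) : S.Z n = (S.m n : ℝ) * S.w n + S.b n := by unfold b; ring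
lemma beq (n : ℕ) : S.b n = 2 * S.w n + S.et n := by unfold et; ring
lemma Yeq (n : ℕ) : S.Y n = S.Z n + S.h n := by unfold Z; ring

lemma c2' (n : ℕ) : S.w n + S.et n ≤ S.g (n + 1) + S.s (n + 2) := by
  have := S.c2 n
  unfold et b Z Y g s; nlinarith

lemma c2'' (n : ℕ) : S.Y (n + 1) ≤ S.s (n + 1) - S.w n - S.et n := by
  have := S.c2 n
  unfold et b Z Y s
  have e1 : n + 1 + 1 = n + 2 := rfl
  rw [e1]; nlinarith

/-- `γ`. -/
noncomputable def ga (n : ℕ) : ℝ := S.Y n + S.s (n + 1) - S.g n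

lemma ga_ge (n : ℕ) : S.g (n + 1) ≤ S.ga n := by
  have := S.c3 n
  unfold ga Y s g
  have e1 : n + 1 + 1 = n + 2 := rfl
  rw [e1]; linarith

lemma ga_lt (n : ℕ) : S.ga n < S.p (n + 1) := by
  have := S.c5 n
  unfold ga Y s g; linarith

lemma h_le (n : ℕ) : S.h n ≤ S.Z n + S.s (n + 1) - S.w n := by
  have := S.c6 n
  unfold Z Y s; linarith

lemma Z_lt_h (n : ℕ) : S.Z n < S.h n := by
  have := S.c7 n
  unfold Z Y; linarith

lemma w_le_mw (n : ℕ) : S.w n ≤ (S.m n : ℝ) * S.w n := by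
  nlinarith [S.mpos n, S.wpos n]

lemma Z_ge (n : ℕ) : 3 * S.w n < S.Z n := by
  rw [Zeq, beq]; nlinarith [S.w_le_mw n, S.et_pos n]

lemma hpos (n : ℕ) : 0 < S.h n := by
  have := S.Z_lt_h n; have := S.Z_ge n; have := S.wpos n; linarith

lemma bpos (n : ℕ) : 0 < S.b n := by
  rw [beq]; have := S.et_pos n; have := S.wpos n; linarith

lemma Zpos (n : ℕ) : 0 < S.Z n := by
  have := S.Z_ge n; have := S.wpos n; linarith

lemma Ypos (n : ℕ) : 0 < S.Y n := by
  rw [Yeq]; have := S.Zpos n; have := S.hpos n; linarith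

lemma r_lt_p (n : ℕ) : S.r n < S.p n := by
  have := S.c5 n; have := S.ppos (n + 1); linarith

/-- `g n > Y n + r (n+1)`. -/
lemma g_gt (n : ℕ) : S.Y n + S.r (n + 1) < S.g n := by
  have := S.c5 n
  unfold Y g; linarith

lemma gpos (n : ℕ) : 0 < S.g n := by
  have := S.g_gt n; have := S.Ypos n; have := S.rpos (n + 1); linarith

lemma spos (n : ℕ) : 0 < S.s n := by
  unfold s; have := S.ppos n; have := S.rpos n; linarith

lemma s_eq (n : ℕ) : S.s n = S.g n + S.Y n + S.s (n + 1) := by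
  unfold s g Y; ring

lemma g_le (n : ℕ) : S.g n ≤ S.Y n + S.s (n + 1) := by
  have := S.ga_ge n; have := S.gpos (n + 1)
  unfold ga at *; linarith

lemma w_et_le (n : ℕ) : S.w n + S.et n ≤ S.s (n + 1) := by
  have := S.c2'' n; have := S.Ypos (n + 1); linarith

lemma w_le (n : ℕ) : S.w n ≤ S.s (n + 1) := by
  have := S.w_et_le n; have := S.et_pos n; linarith

lemma b_le (n : ℕ) : S.b n ≤ (S.m n : ℝ) * S.w n + S.s (n + 1) := by
  rw [beq]; have := S.w_et_le n; have := S.w_le_mw n; linarith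

lemma r_lt_w (n : ℕ) : S.r (n + 1) < S.w n := by
  have := S.c4 n; have := S.r_lt_p (n + 1); linarith

lemma elt_pos (n : ℕ) (i : Slot (S.m n)) : 0 < S.elt n i := by
  unfold elt
  rcases i with i | i
  · simpa using S.wpos n
  · fin_cases i
    · simpa using S.bpos n
    · simpa using S.hpos n
    · simpa using S.gpos n

lemma val_nonneg (n : ℕ) (d : Slot (S.m n) → Bool) : 0 ≤ S.val n d := by
  unfold val
  apply Finset.sum_nonneg
  intro i _
  split_ifs
  · exact (S.elt_pos n i).le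
  · exact le_refl _

lemma elt_sum (n : ℕ) : ∑ i, S.elt n i = S.g n + S.Y n := by
  unfold elt
  rw [Fintype.sum_sum_type, Fin.sum_univ_three, Yeq, Zeq]
  simp only [Sum.elim_inl, Sum.elim_inr, Finset.sum_const, Finset.card_univ, Fintype.card_fin,
    nsmul_eq_mul, Matrix.cons_val_zero, Matrix.cons_val_one, Matrix.cons_val]
  ring

lemma val_le (n : ℕ) (d : Slot (S.m n) → Bool) : S.val n d ≤ S.s n - S.s (n + 1) := by
  rw [S.s_eq n, add_sub_cancel_right, ← elt_sum]
  unfold val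
  apply Finset.sum_le_sum
  intro i _
  split_ifs
  · exact le_refl _
  · exact (S.elt_pos n i).le

/-! ### tail sums -/

noncomputable def T (D : S.Pat) (n : ℕ) : ℝ := ∑' i, S.val (n + i) (D (n + i))

lemma s0 : Tendsto S.s atTop (𝓝 0) := by
  have h := S.p0.add S.r0
  rw [add_zero] at h
  exact h

lemma hasSum_s (n : ℕ) : HasSum (fun i => S.s (n + i) - S.s (n + i + 1)) (S.s n) := by
  rw [hasSum_iff_tendsto_nat_of_nonneg]
  · have h1 : ∀ N, ∑ i ∈ range N, (S.s (n + i) - S.s (n + i + 1)) = S.s n - S.s (n + N) := by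
      intro N
      induction N with
      | zero => simp
      | succ N ih => rw [sum_range_succ, ih]; ring_nf
    simp_rw [h1]
    have h2 : Tendsto (fun N => S.s (n + N)) atTop (𝓝 0) := by
      have := (tendsto_add_atTop_iff_nat n).2 S.s0
      simpa [add_comm] using this
    simpa using (tendsto_const_nhds (x := S.s n)).sub h2
  · intro i
    have := S.val_nonneg (n + i) (fun _ => false)
    have := S.val_le (n + i) (fun _ => false)
    linarith

lemma summable_val (D : S.Pat) (n : ℕ) : Summable (fun i => S.val (n + i) (D (n + i))) :=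
  Summable.of_nonneg_of_le (fun _ => S.val_nonneg _ _) (fun _ => S.val_le _ _) (S.hasSum_s n).summable

lemma T_nonneg (D : S.Pat) (n : ℕ) : 0 ≤ S.T D n := tsum_nonneg (fun _ => S.val_nonneg _ _)

lemma T_le (D : S.Pat) (n : ℕ) : S.T D n ≤ S.s n := by
  rw [← (S.hasSum_s n).tsum_eq]
  exact (S.summable_val D n).tsum_le_tsum (fun _ => S.val_le _ _) (S.hasSum_s n).summable

lemma T_succ (D : S.Pat) (n : ℕ) : S.T D n = S.val n (D n) + S.T D (n + 1) := by
  unfold T
  rw [(S.summable_val D n).tsum_eq_zero_add]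
  congr 1
  apply tsum_congr
  intro i
  have : n + (i + 1) = n + 1 + i := by ring
  rw [this]

lemma T_congr (D D' : S.Pat) (n : ℕ) (h : ∀ i, n ≤ i → D i = D' i) : S.T D n = S.T D' n := by
  unfold T
  apply tsum_congr
  intro i
  rw [h (n + i) (by omega)]

lemma T_of_head (D D' : S.Pat) (n : ℕ) (h : ∀ i, i < n → D i = D' i)
    (hT : S.T D n = S.T D' n) : S.T D 0 = S.T D' 0 := by
  have key : ∀ k, k ≤ n → S.T D (n - k) = S.T D' (n - k) := by
    intro k
    induction k with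
    | zero => intro _; simpa using hT
    | succ k ih =>
      intro hk
      rw [S.T_succ D, S.T_succ D', h (n - (k + 1)) (by omega)]
      have e : n - (k + 1) + 1 = n - k := by omega
      rw [e, ih (by omega)]
  simpa using key n le_rfl

lemma T_head_eq (D D' : S.Pat) (n : ℕ) (h : ∀ i, i < n → D i = D' i)
    (hT : S.T D 0 = S.T D' 0) : S.T D n = S.T D' n := by
  have key : ∀ k, k ≤ n → S.T D k = S.T D' k := by
    intro k
    induction k with
    | zero => intro _; exact hT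
    | succ k ih =>
      intro hk
      have h1 := ih (by omega)
      rw [S.T_succ D, S.T_succ D', h k (by omega)] at h1
      linarith
  exact key n le_rfl

lemma T_of_rem (D : S.Pat) (n : ℕ) (ρ : ℕ → ℝ)
    (h : ∀ i, ρ i = S.val (n + i) (D (n + i)) + ρ (i + 1))
    (h0 : ∀ i, 0 ≤ ρ i) (h1 : ∀ i, ρ i ≤ S.s (n + i)) : S.T D n = ρ 0 := by
  have hs : HasSum (fun i => S.val (n + i) (D (n + i))) (ρ 0) := by
    rw [hasSum_iff_tendsto_nat_of_nonneg (fun _ => S.val_nonneg _ _)]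
    have e1 : ∀ N, ∑ i ∈ range N, S.val (n + i) (D (n + i)) = ρ 0 - ρ N := by
      intro N
      induction N with
      | zero => simp
      | succ N ih => rw [sum_range_succ, ih]; have := h N; linarith
    simp_rw [e1]
    have h2 : Tendsto (fun N => S.s (n + N)) atTop (𝓝 0) := by
      have := (tendsto_add_atTop_iff_nat n).2 S.s0
      simpa [add_comm] using this
    have h3 : Tendsto ρ atTop (𝓝 0) :=
      squeeze_zero h0 h1 h2
    simpa using (tendsto_const_nhds (x := ρ 0)).sub h3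
  exact hs.tsum_eq

/-! ### covering lemmas -/

lemma cov_w (n : ℕ) (t : ℝ) (h0 : 0 ≤ t) (h1 : t ≤ (S.m n : ℝ) * S.w n + S.s (n + 1)) :
    ∃ c : ℕ, c ≤ S.m n ∧ 0 ≤ t - c * S.w n ∧ t - c * S.w n ≤ S.s (n + 1) := by
  by_cases hc : (S.m n : ℝ) * S.w n ≤ t
  · exact ⟨S.m n, le_rfl, by linarith, by linarith⟩
  · push Not at hc
    have hw := S.wpos n
    refine ⟨⌊t / S.w n⌋₊, ?_, ?_, ?_⟩
    · have h3 : t / S.w n < S.m n := by rw [div_lt_iff₀ hw]; exact hc
      have h4 : ((⌊t / S.w n⌋₊ : ℕ) : ℝ) ≤ t / S.w n := Nat.floor_le (by positivity)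
      have h5 : ((⌊t / S.w n⌋₊ : ℕ) : ℝ) < S.m n := lt_of_le_of_lt h4 h3
      exact_mod_cast h5.le
    · have h4 : ((⌊t / S.w n⌋₊ : ℕ) : ℝ) ≤ t / S.w n := Nat.floor_le (by positivity)
      rw [le_div_iff₀ hw] at h4
      linarith
    · have h4 : t / S.w n < (⌊t / S.w n⌋₊ : ℕ) + 1 := Nat.lt_floor_add_one _
      rw [div_lt_iff₀ hw] at h4
      have := S.w_le n
      nlinarith

lemma cov_b (n : ℕ) (t : ℝ) (h0 : 0 ≤ t) (h1 : t ≤ S.Z n + S.s (n + 1)) :
    ∃ (β : Bool) (c : ℕ), c ≤ S.m n ∧ 0 ≤ t - (bv β * S.b n + c * S.w n) ∧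
      t - (bv β * S.b n + c * S.w n) ≤ S.s (n + 1) := by
  rw [Zeq] at h1
  by_cases hc : S.b n ≤ t
  · obtain ⟨c, hc1, hc2, hc3⟩ := S.cov_w n (t - S.b n) (by linarith) (by linarith)
    exact ⟨true, c, hc1, by rw [bv_true]; linarith, by rw [bv_true]; linarith⟩
  · push Not at hc
    obtain ⟨c, hc1, hc2, hc3⟩ := S.cov_w n t h0 (by have := S.b_le n; linarith)
    exact ⟨false, c, hc1, by rw [bv_false]; linarith, by rw [bv_false]; linarith⟩

lemma cov_h (n : ℕ) (t : ℝ) (h0 : 0 ≤ t) (h1 : t ≤ S.Y n + S.s (n + 1)) :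
    ∃ (ι β : Bool) (c : ℕ), c ≤ S.m n ∧ 0 ≤ t - (bv ι * S.h n + bv β * S.b n + c * S.w n) ∧
      t - (bv ι * S.h n + bv β * S.b n + c * S.w n) ≤ S.s (n + 1) := by
  rw [Yeq] at h1
  by_cases hc : S.h n ≤ t
  · obtain ⟨β, c, hc1, hc2, hc3⟩ := S.cov_b n (t - S.h n) (by linarith) (by linarith)
    exact ⟨true, β, c, hc1, by rw [bv_true]; linarith, by rw [bv_true]; linarith⟩
  · push Not at hc
    obtain ⟨β, c, hc1, hc2, hc3⟩ := S.cov_b n t h0
      (by have := S.h_le n; have := S.wpos n; linarith)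
    exact ⟨false, β, c, hc1, by rw [bv_false]; linarith, by rw [bv_false]; linarith⟩

lemma cov_g (n : ℕ) (t : ℝ) (h0 : 0 ≤ t) (h1 : t ≤ S.s n) :
    ∃ (e ι β : Bool) (c : ℕ), c ≤ S.m n ∧ 0 ≤ t - S.fv n e ι β c ∧
      t - S.fv n e ι β c ≤ S.s (n + 1) := by
  rw [S.s_eq n] at h1
  unfold fv
  by_cases hc : S.g n ≤ t
  · obtain ⟨ι, β, c, hc1, hc2, hc3⟩ := S.cov_h n (t - S.g n) (by linarith) (by linarith)
    exact ⟨true, ι, β, c, hc1, by rw [bv_true]; linarith, by rw [bv_true]; linarith⟩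
  · push Not at hc
    obtain ⟨ι, β, c, hc1, hc2, hc3⟩ := S.cov_h n t h0 (by have := S.g_le n; linarith)
    exact ⟨false, ι, β, c, hc1, by rw [bv_false]; linarith, by rw [bv_false]; linarith⟩

lemma step_ex (n : ℕ) (t : ℝ) (h0 : 0 ≤ t) (h1 : t ≤ S.s n) :
    ∃ d : Slot (S.m n) → Bool, 0 ≤ t - S.val n d ∧ t - S.val n d ≤ S.s (n + 1) := by
  obtain ⟨e, ι, β, c, hc, h2, h3⟩ := S.cov_g n t h0 h1
  refine ⟨mkd (S.m n) e ι β c, ?_, ?_⟩
  · rw [S.val_mkd n e ι β hc]; exact h2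
  · rw [S.val_mkd n e ι β hc]; exact h3

/-- every real in `[0, s n]` is a tail sum, with prescribed digits before level `n`. -/
lemma fill (D0 : S.Pat) (n : ℕ) (t : ℝ) (h0 : 0 ≤ t) (h1 : t ≤ S.s n) :
    ∃ D : S.Pat, (∀ i, i < n → D i = D0 i) ∧ S.T D n = t := by
  choose! F hF using S.step_ex
  let R : ℕ → ℝ := fun j => Nat.rec t (fun j x => if n ≤ j then x - S.val j (F j x) else t) j
  have hR0 : R 0 = t := rfl
  have hRs : ∀ j, R (j + 1) = if n ≤ j then R j - S.val j (F j (R j)) else t := fun j => rfl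
  have hRlt : ∀ j, j ≤ n → R j = t := by
    intro j hj
    cases j with
    | zero => rfl
    | succ j => rw [hRs, if_neg (by omega)]
  let D : S.Pat := fun j => if j < n then D0 j else F j (R j)
  have hbd : ∀ i, 0 ≤ R (n + i) ∧ R (n + i) ≤ S.s (n + i) := by
    intro i
    induction i with
    | zero => simp only [add_zero]; rw [hRlt n le_rfl]; exact ⟨h0, h1⟩
    | succ i ih =>
      have e : n + (i + 1) = (n + i) + 1 := by ring
      rw [e, hRs, if_pos (by omega)]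
      exact hF (n + i) (R (n + i)) ih.1 ih.2
  refine ⟨D, fun i hi => by simp [D, hi], ?_⟩
  have := S.T_of_rem D n (fun i => R (n + i)) ?_ (fun i => (hbd i).1) (fun i => (hbd i).2)
  · rw [this]; simp only [add_zero]; exact hRlt n le_rfl
  · intro i
    have e : n + (i + 1) = (n + i) + 1 := by ring
    simp only [e]
    rw [hRs, if_pos (by omega)]
    have : D (n + i) = F (n + i) (R (n + i)) := by simp [D]
    rw [this]; ring

/-- the swap lemma. -/
lemma swap (D : S.Pat) (n : ℕ) (d : Slot (S.m n) → Bool) (h0 : 0 ≤ S.T D n - S.val n d)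
    (h1 : S.T D n - S.val n d ≤ S.s (n + 1)) :
    ∃ D' : S.Pat, (∀ i, i < n → D' i = D i) ∧ D' n = d ∧ S.T D' 0 = S.T D 0 := by
  obtain ⟨D', hD', hT⟩ := S.fill (Function.update D n d) (n + 1) _ h0 h1
  have hn : D' n = d := by rw [hD' n (by omega)]; simp
  have hlt : ∀ i, i < n → D' i = D i := by
    intro i hi
    rw [hD' i (by omega), Function.update_of_ne (by omega)]
  refine ⟨D', hlt, hn, ?_⟩
  apply S.T_of_head D' D n hlt
  rw [S.T_succ D', hn, hT]; ring

end Sys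

end Pool.Agent.Helper752.Card
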