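import Pool.Agent.Helper752.Card.NoPair

set_option autoImplicit false

open Finset Filter Topology Cardinal

namespace Pool.Agent.Helper752.Card

lemma mk_cantor : #(ℕ → Bool) = 𝔠 := by
  rw [← Cardinal.power_def, Cardinal.mk_bool, Cardinal.mk_nat, Cardinal.two_power_aleph0]

lemma unc_cantor : ¬ Countable (ℕ → Bool) := by
  intro h
  have h1 : #(ℕ → Bool) ≤ ℵ₀ := Cardinal.mk_le_aleph0_iff.2 h
  rw [mk_cantor] at h1
  exact absurd h1 (not_le.2 Cardinal.aleph0_lt_continuum)

namespace Sys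

variable (S : Sys)

def Cls (t : ℝ) : Set S.Pat := {D | S.T D 0 = t}

lemma cont_T : Continuous (fun D : S.Pat => S.T D 0) := by
  unfold T
  apply continuous_tsum (u := fun i => S.s (0 + i) - S.s (0 + i + 1))
  · intro i
    have h1 : Continuous (fun d : Slot (S.m (0 + i)) → Bool => S.val (0 + i) d) :=
      continuous_of_discreteTopology
    exact h1.comp (continuous_apply (0 + i))
  · exact (S.hasSum_s 0).summable
  · intro n x
    rw [Real.norm_of_nonneg (S.val_nonneg _ _)]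
    exact S.val_le _ _

lemma closed_Cls (t : ℝ) : IsClosed (S.Cls t) :=
  isClosed_singleton.preimage S.cont_T

/-- a countable closed nonempty set of patterns has an isolated point. -/
lemma isol (C : Set S.Pat) (hC : IsClosed C) (hne : C.Nonempty) (hcount : C.Countable) :
    ∃ D ∈ C, ∃ N, ∀ D' ∈ C, (∀ i, i < N → D' i = D i) → D' = D := by
  by_contra hcon
  push Not at hcon
  have hperf : Perfect C := by
    refine ⟨hC, ?_⟩
    rw [preperfect_iff_nhds]
    intro x hx U hU
    rw [nhds_pi, Filter.mem_pi] at hU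
    obtain ⟨I, hI, t, ht, hsub⟩ := hU
    obtain ⟨N, hN⟩ := hI.bddAbove
    obtain ⟨D', hD'C, hD', hne'⟩ := hcon x hx (N + 1)
    refine ⟨D', ⟨hsub ?_, hD'C⟩, hne'⟩
    intro i hi
    rw [hD' i (by have := hN hi; omega)]
    exact mem_of_mem_nhds (ht i)
  let := TopologicalSpace.upgradeIsCompletelyMetrizable S.Pat
  obtain ⟨f, hf1, -, hf2⟩ := hperf.exists_nat_bool_injection hne
  apply unc_cantor
  have h1 : (Set.range f).Countable := hcount.mono hf1
  have h2 : (f ⁻¹' (Set.range f)).Countable := h1.preimage hf2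
  rw [Set.preimage_range] at h2
  exact Set.countable_univ_iff.1 h2

/-- isolated points close to two given representations, in a countable class. -/
lemma near (t : ℝ) (D0 : S.Pat) (h0 : D0 ∈ S.Cls t) (hc : (S.Cls t).Countable) (l : ℕ) :
    ∃ D ∈ S.Cls t, (∀ i, i ≤ l → D i = D0 i) ∧ ∃ N, ∀ n, N ≤ n → S.Rig D n := by
  have hcl : IsClosed (S.Cls t ∩ {D | ∀ i, i ≤ l → D i = D0 i}) := by
    apply (S.closed_Cls t).inter
    have : {D : S.Pat | ∀ i, i ≤ l → D i = D0 i} = ⋂ i, ⋂ (_ : i ≤ l), {D : S.Pat | D i = D0 i} := by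
      ext D; simp
    rw [this]
    apply isClosed_iInter; intro i
    apply isClosed_iInter; intro _
    exact isClosed_singleton.preimage (continuous_apply i)
  obtain ⟨D, ⟨hD1, hD2⟩, N, hN⟩ := S.isol _ hcl ⟨D0, h0, fun i _ => rfl⟩
    (hc.mono Set.inter_subset_left)
  refine ⟨D, hD1, hD2, max N (l + 1), ?_⟩
  intro n hn D' hD' hT
  have : D' = D := by
    apply hN D' ⟨?_, ?_⟩
    · intro i hi
      exact hD' i (lt_of_lt_of_le hi (le_trans (le_max_left _ _) hn))
    · show S.T D' 0 = t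
      rw [hT]; exact hD1
    · intro i hi
      have h1 : l + 1 ≤ n := le_trans (le_max_right _ _) hn
      rw [hD' i (by omega)]
      exact hD2 i hi
  rw [this]

variable {S}

lemma gen_unc (hG : S.Gen) {t : ℝ} {D D' : S.Pat} (h : D ∈ S.Cls t) (h' : D' ∈ S.Cls t) {l : ℕ}
    (hne : fd (D l) ≠ fd (D' l)) : ¬ (S.Cls t).Countable := by
  intro hc
  obtain ⟨E, hE1, hE2, N, hE3⟩ := S.near t D h hc l
  obtain ⟨E', hE1', hE2', N', hE3'⟩ := S.near t D' h' hc l
  obtain ⟨M, a, c, hM⟩ := evC_of_rig hE3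
  obtain ⟨M', a', c', hM'⟩ := evC_of_rig hE3'
  have := gen_same hG (M := max M M') (fun n hn => hM n (le_trans (le_max_left _ _) hn))
    (fun n hn => hM' n (le_trans (le_max_right _ _) hn)) (hE1.trans hE1'.symm) l
  rw [hE2 l le_rfl, hE2' l le_rfl] at this
  exact hne this

lemma spe_unc (hS : S.Spe) {t : ℝ} {D D' : S.Pat} (h : D ∈ S.Cls t) (h' : D' ∈ S.Cls t) {l : ℕ}
    (hne : cE D D' l ≠ 0) : ¬ (S.Cls t).Countable := by
  intro hc
  obtain ⟨E, hE1, hE2, N, hE3⟩ := S.near t D h hc l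
  obtain ⟨E', hE1', hE2', N', hE3'⟩ := S.near t D' h' hc l
  obtain ⟨M, a, c, hM⟩ := evC_of_rig hE3
  obtain ⟨M', a', c', hM'⟩ := evC_of_rig hE3'
  have := (spe_rel hS (M := max M M') (fun n hn => hM n (le_trans (le_max_left _ _) hn))
    (fun n hn => hM' n (le_trans (le_max_right _ _) hn)) (hE1.trans hE1'.symm) l).1
  unfold cE dk db at this hne
  rw [hE2 l le_rfl, hE2' l le_rfl] at this
  exact hne this

/-- two formally different representations force an infinite class. -/
lemma inf_of_two (hN : S.NoPair) {t : ℝ} {D D' : S.Pat} (h : D ∈ S.Cls t) (h' : D' ∈ S.Cls t)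
    {l : ℕ} (hne : fd (D l) ≠ fd (D' l)) : (S.Cls t).Infinite := by
  intro hfin
  classical
  let L : Set ℕ := {k | ∃ E ∈ S.Cls t, ∃ E' ∈ S.Cls t, (∀ n, n < k → fd (E n) = fd (E' n)) ∧
    fd (E k) ≠ fd (E' k)}
  have hLne : L.Nonempty := by
    have hex : ∃ k, fd (D k) ≠ fd (D' k) := ⟨l, hne⟩
    refine ⟨Nat.find hex, D, h, D', h', ?_, Nat.find_spec hex⟩
    intro n hn
    have := Nat.find_min hex hn
    push Not at this
    exact this
  have hLfin : L.Finite := by
    have hprod : ((S.Cls t) ×ˢ (S.Cls t)).Finite := hfin.prod hfin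
    apply (hprod.image (fun q : S.Pat × S.Pat => sInf {n | fd (q.1 n) ≠ fd (q.2 n)})).subset
    rintro k ⟨E, hE, E', hE', h1, h2⟩
    refine ⟨(E, E'), ⟨hE, hE'⟩, ?_⟩
    apply le_antisymm
    · exact Nat.sInf_le h2
    · by_contra hlt
      push Not at hlt
      have h3 : sInf {n | fd (E n) ≠ fd (E' n)} ∈ {n | fd (E n) ≠ fd (E' n)} :=
        Nat.sInf_mem ⟨k, h2⟩
      exact h3 (h1 _ hlt)
  obtain ⟨k, ⟨E, hE, E', hE', h1, h2⟩, hmax⟩ := hLfin.exists_maximal hLne
  have rg : ∀ F ∈ S.Cls t, ∀ n, k < n → S.Rig F n := by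
    intro F hF n hn F' hF' hT
    by_contra hcon
    have : n ∈ L := ⟨F', hT.trans hF, F, hF, fun i hi => by rw [hF' i hi], hcon⟩
    have := hmax this (by omega)
    omega
  exact h2 (hN E E' k (hE.trans hE'.symm) h1 (rg E hE) (rg E' hE'))

end Sys

end Pool.Agent.Helper752.Card
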