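import Pool.Agent.Helper752.Card.Rng
import Pool.Agent.Helper752.Card.Ex

set_option autoImplicit false

open Finset Filter Topology
open scoped Cardinal

namespace Pool.Agent.Helper752.Card

/-- the cardinality function of a series. -/
noncomputable def cardFn (x : ℕ → ℝ) (t : ℝ) : Cardinal.{0} :=
  #{ε : ℕ → Bool // ∑' n, (if ε n = true then x n else 0) = t}

namespace Sys

variable (S : Sys)

lemma summable_elt : Summable (fun q : Σ n, Slot (S.m n) => S.elt q.1 q.2) := by
  refine (summable_sigma_of_nonneg (f := fun q : Σ n, Slot (S.m n) => S.elt q.1 q.2)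
    (fun q => (S.elt_pos q.1 q.2).le)).2 ⟨?_, ?_⟩
  · intro n
    exact Summable.of_finite
  · have h1 : (fun n => ∑' i : Slot (S.m n), S.elt n i) = fun n => S.s n - S.s (n + 1) := by
      funext n
      rw [tsum_fintype, S.elt_sum n, S.s_eq n]; ring
    have h2 := (S.hasSum_s 0).summable
    simp only [zero_add] at h2
    show Summable (fun n => ∑' i : Slot (S.m n), S.elt n i)
    rw [h1]; exact h2

lemma summable_D (D : S.Pat) : Summable (fun q : Σ n, Slot (S.m n) =>
      (if D q.1 q.2 = true then S.elt q.1 q.2 else 0)) := by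
  apply Summable.of_nonneg_of_le _ _ S.summable_elt
  · intro q
    split_ifs
    · exact (S.elt_pos _ _).le
    · exact le_rfl
  · intro q
    split_ifs
    · exact le_rfl
    · exact (S.elt_pos _ _).le

lemma tsum_sigma_eq (D : S.Pat) :
    ∑' q : Σ n, Slot (S.m n), (if D q.1 q.2 = true then S.elt q.1 q.2 else 0) = S.T D 0 := by
  rw [(S.summable_D D).tsum_sigma]
  unfold T val
  apply tsum_congr
  intro n
  rw [tsum_fintype, zero_add]

/-- realisation by a sequence of reals, with `z` additional zero terms. -/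
theorem realize (z : ℕ) : ∃ x : ℕ → ℝ, Summable (fun n => |x n|) ∧
    ∀ t, cardFn x t = ((2 ^ z : ℕ) : Cardinal) * #(S.Cls t) := by
  have : Infinite (Σ n, Slot (S.m n)) :=
    Infinite.of_injective (fun n : ℕ => (⟨n, Sum.inr 0⟩ : Σ n, Slot (S.m n)))
      (fun a b h => by simpa using congrArg Sigma.fst h)
  obtain ⟨e⟩ : Nonempty (ℕ ≃ ((Σ n, Slot (S.m n)) ⊕ Fin z)) := nonempty_equiv_of_countable
  let y : ((Σ n, Slot (S.m n)) ⊕ Fin z) → ℝ := Sum.elim (fun q => S.elt q.1 q.2) (fun _ => 0)
  have hynn : ∀ j, 0 ≤ y j := by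
    rintro (q | i)
    · exact (S.elt_pos _ _).le
    · exact le_rfl
  have hy : Summable y := Summable.sum y S.summable_elt Summable.of_finite
  let E : (ℕ → Bool) ≃ S.Pat × (Fin z → Bool) :=
    (Equiv.arrowCongr e (Equiv.refl Bool)).trans
      ((Equiv.sumArrowEquivProdArrow _ _ _).trans
        (Equiv.prodCongr (Equiv.piCurry (fun (n : ℕ) (_ : Slot (S.m n)) => Bool)) (Equiv.refl _)))
  have key : ∀ ε : ℕ → Bool, ∑' n, (if ε n = true then y (e n) else 0) = S.T (E ε).1 0 := by
    intro ε
    have h1 : ∑' n, (if ε n = true then y (e n) else 0) =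
        ∑' j, (if ε (e.symm j) = true then y j else 0) := by
      rw [← e.tsum_eq (fun j => if ε (e.symm j) = true then y j else 0)]
      simp
    rw [h1]
    have h2 : Summable ((fun j => if ε (e.symm j) = true then y j else 0) ∘ Sum.inl) :=
      S.summable_D (E ε).1
    have h3 : Summable ((fun j => if ε (e.symm j) = true then y j else 0) ∘ Sum.inr) :=
      Summable.of_finite
    rw [Summable.tsum_sum h2 h3]
    have h4 : ∑' i : Fin z, (if ε (e.symm (Sum.inr i)) = true then y (Sum.inr i) else 0) = 0 := by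
      have : ∀ i : Fin z, (if ε (e.symm (Sum.inr i)) = true then y (Sum.inr i) else 0) = 0 := by
        intro i; simp [y]
      simp [this]
    rw [h4, add_zero]
    exact S.tsum_sigma_eq (E ε).1
  refine ⟨fun n => y (e n), ?_, ?_⟩
  · have h1 : (fun n => |y (e n)|) = y ∘ e := by
      funext n
      exact abs_of_nonneg (hynn _)
    rw [h1]
    exact e.summable_iff.2 hy
  · intro t
    unfold cardFn
    have F : {ε : ℕ → Bool // ∑' n, (if ε n = true then y (e n) else 0) = t} ≃
        S.Cls t × (Fin z → Bool) :=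
      (Equiv.subtypeEquiv E (p := fun ε => ∑' n, (if ε n = true then y (e n) else 0) = t)
        (q := fun q => q.1 ∈ S.Cls t) (fun ε => by rw [key ε]; rfl)).trans
        (Equiv.prodSubtypeFstEquivSubtypeProd (p := fun D => D ∈ S.Cls t))
    rw [Cardinal.mk_congr F, Cardinal.mk_prod, Cardinal.lift_id, Cardinal.lift_id]
    have : #(Fin z → Bool) = ((2 ^ z : ℕ) : Cardinal) := by
      rw [← Cardinal.power_def, Cardinal.mk_bool, Cardinal.mk_fin]
      simp
    rw [this, mul_comm]

end Sys

end Pool.Agent.Helper752.Card
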