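import Pool.Agent.Helper752.Card.Win

set_option autoImplicit false

open Finset Filter Topology

namespace Pool.Agent.Helper752.Card

namespace Sys

variable (S : Sys)

def TO (D : S.Pat) (n : ℕ) : Prop :=
  be (D n) = false ∧ kk (D n) = 0 ∧ io (D n) = false ∧ ee (D n) = false
def TA (D : S.Pat) (n : ℕ) : Prop :=
  be (D n) = false ∧ kk (D n) = 0 ∧ io (D n) = false ∧ ee (D n) = true
def TB (D : S.Pat) (n : ℕ) : Prop :=
  be (D n) = true ∧ kk (D n) = S.m n ∧ io (D n) = true ∧ ee (D n) = false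
def TI (D : S.Pat) (n : ℕ) : Prop :=
  be (D n) = true ∧ kk (D n) = S.m n ∧ io (D n) = true ∧ ee (D n) = true
def TN (D : S.Pat) (n : ℕ) : Prop :=
  (be (D n) = false ∧ kk (D n) = 1) ∨ (be (D n) = true ∧ kk (D n) + 1 = S.m n)

variable {S}

lemma TN_not (D : S.Pat) (n : ℕ) (h : S.TN D n) :
    ¬ S.TO D n ∧ ¬ S.TA D n ∧ ¬ S.TB D n ∧ ¬ S.TI D n := by
  unfold TN TO TA TB TI at *
  refine ⟨?_, ?_, ?_, ?_⟩
  all_goals
    rintro ⟨h1, h2, -⟩
    rcases h with ⟨h3, h4⟩ | ⟨h3, h4⟩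
    · first | omega | (rw [h1] at h3; exact absurd h3 (by simp))
    · first | omega | (rw [h1] at h3; exact absurd h3 (by simp))

/-- the classification at one level. -/
lemma ty_cases (D : S.Pat) (n : ℕ) (h : S.Rig D n) :
    (S.TO D n ∧ S.T D (n + 1) < S.w n)
    ∨ (S.TA D n ∧ S.T D (n + 1) < S.w n ∧ S.ga n < S.T D (n + 1))
    ∨ (S.TB D n ∧ S.s (n + 1) - S.w n < S.T D (n + 1) ∧ S.Y n + S.T D (n + 1) < S.g n)
    ∨ (S.TI D n ∧ S.s (n + 1) - S.w n < S.T D (n + 1))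
    ∨ (S.TN D n ∧ S.s (n + 1) - S.w n - S.et n < S.T D (n + 1) ∧
        S.T D (n + 1) < S.w n + S.et n ∧
        ((ee (D n) = false ∧ S.T D n < S.Y n) ∨
          (ee (D n) = true ∧ S.g n + S.s (n + 1) < S.T D n))) := by
  have W := S.win_of_rig h
  have hT := S.T_succ D n
  rw [S.val_eq] at hT
  rw [hT]
  rcases S.cls n _ _ _ _ (kk_le _) _ (S.T_nonneg D _) (S.T_le D _) W with
    ⟨h1, h2, h3, h4, h5⟩ | ⟨h1, h2, h3, h4, h5⟩ | ⟨h1, h2, h3, h4⟩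
  · rcases h5 with h5 | ⟨h5, h6⟩
    · left; exact ⟨⟨h1, h2, h3, h5⟩, h4⟩
    · right; left; exact ⟨⟨h1, h2, h3, h5⟩, h4, h6⟩
  · rcases h5 with h5 | ⟨h5, h6⟩
    · right; right; right; left; exact ⟨⟨h1, h2, h3, h5⟩, h4⟩
    · right; right; left; exact ⟨⟨h1, h2, h3, h5⟩, h4, h6⟩
  · right; right; right; right
    exact ⟨h1, h2, h3, h4⟩

lemma T_TO {D : S.Pat} {n : ℕ} (h : S.TO D n) : S.T D n = S.T D (n + 1) := by
  obtain ⟨h1, h2, h3, h4⟩ := h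
  rw [S.T_succ, S.val_eq, h1, h2, h3, h4]
  unfold fv; simp

lemma T_TA {D : S.Pat} {n : ℕ} (h : S.TA D n) : S.T D n = S.g n + S.T D (n + 1) := by
  obtain ⟨h1, h2, h3, h4⟩ := h
  rw [S.T_succ, S.val_eq, h1, h2, h3, h4]
  unfold fv; simp

lemma T_TB {D : S.Pat} {n : ℕ} (h : S.TB D n) : S.T D n = S.Y n + S.T D (n + 1) := by
  obtain ⟨h1, h2, h3, h4⟩ := h
  rw [S.T_succ, S.val_eq, h1, h2, h3, h4, S.Yeq, S.Zeq]
  unfold fv; simp; ring

lemma T_TI {D : S.Pat} {n : ℕ} (h : S.TI D n) : S.T D n = S.g n + S.Y n + S.T D (n + 1) := by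
  obtain ⟨h1, h2, h3, h4⟩ := h
  rw [S.T_succ, S.val_eq, h1, h2, h3, h4, S.Yeq, S.Zeq]
  unfold fv; simp; ring

variable (S) in
lemma w_lt_Y (n : ℕ) : S.w n < S.Y n := by
  rw [Yeq]; have := S.Z_ge n; have := S.wpos n; have := S.hpos n; linarith

/-- position facts at level `n`. -/
lemma loc (D : S.Pat) (n : ℕ) (h : S.Rig D n) :
    (S.TO D n ∧ S.T D n < S.Y n)
    ∨ (S.TA D n ∧ S.Y n + S.s (n + 1) < S.T D n)
    ∨ (S.TB D n ∧ S.T D n < S.g n)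
    ∨ (S.TI D n ∧ S.g n + S.s (n + 1) < S.T D n)
    ∨ (S.TN D n ∧ (S.T D n < S.Y n ∨ S.g n + S.s (n + 1) < S.T D n)) := by
  have hwY := S.w_lt_Y n
  rcases ty_cases D n h with ⟨h1, h2⟩ | ⟨h1, h2, h3⟩ | ⟨h1, h2, h3⟩ | ⟨h1, h2⟩ | ⟨h1, h2, h3, h4⟩
  · left; refine ⟨h1, ?_⟩; rw [T_TO h1]; linarith
  · right; left; refine ⟨h1, ?_⟩; rw [T_TA h1]; unfold ga at h3; linarith
  · right; right; left; refine ⟨h1, ?_⟩; rw [T_TB h1]; linarith
  · right; right; right; left; refine ⟨h1, ?_⟩; rw [T_TI h1]; linarith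
  · right; right; right; right
    refine ⟨h1, ?_⟩
    rcases h4 with ⟨-, h4⟩ | ⟨-, h4⟩
    · left; exact h4
    · right; exact h4

lemma next_N {D : S.Pat} {n : ℕ} (h : S.Rig D n) (h' : S.Rig D (n + 1)) (hN : S.TN D n) :
    S.TA D (n + 1) ∨ S.TB D (n + 1) := by
  obtain ⟨n1, n2, n3, n4⟩ := TN_not D n hN
  have a1 := S.c2' n
  have a2 := S.c2'' n
  have hY := S.Ypos (n + 1)
  have hsp := S.spos (n + 2)
  rcases ty_cases D n h with ⟨h1, h2⟩ | ⟨h1, h2, h3⟩ | ⟨h1, h2, h3⟩ | ⟨h1, h2⟩ | ⟨h1, h2, h3, h4⟩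
  · exact absurd h1 n1
  · exact absurd h1 n2
  · exact absurd h1 n3
  · exact absurd h1 n4
  · rcases loc D (n + 1) h' with ⟨k1, k2⟩ | ⟨k1, k2⟩ | ⟨k1, k2⟩ | ⟨k1, k2⟩ | ⟨k1, k2 | k2⟩
    · linarith
    · left; exact k1
    · right; exact k1
    · linarith
    · linarith
    · linarith

lemma next_A {D : S.Pat} {n : ℕ} (h : S.Rig D n) (h' : S.Rig D (n + 1)) (hA : S.TA D n) :
    S.TA D (n + 1) := by
  have a1 := S.c2' n
  have a3 := S.ga_ge n
  have het := S.et_pos n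
  have hg := S.g_gt (n + 1)
  have hr := S.rpos (n + 2)
  obtain ⟨t1, t2⟩ : S.T D (n + 1) < S.w n ∧ S.ga n < S.T D (n + 1) := by
    rcases ty_cases D n h with ⟨h1, h2⟩ | ⟨h1, h2, h3⟩ | ⟨h1, h2, h3⟩ | ⟨h1, h2⟩ | ⟨h1, h2, h3, h4⟩
    · exact absurd h1.2.2.2 (by rw [hA.2.2.2]; simp)
    · exact ⟨h2, h3⟩
    · exact absurd h1.2.2.2 (by rw [hA.2.2.2]; simp)
    · exact absurd h1.1 (by rw [hA.1]; simp)
    · exact absurd hA (TN_not D n h1).2.1
  rcases loc D (n + 1) h' with ⟨k1, k2⟩ | ⟨k1, k2⟩ | ⟨k1, k2⟩ | ⟨k1, k2⟩ | ⟨k1, k2 | k2⟩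
  · linarith
  · exact k1
  · linarith
  · linarith
  · linarith
  · linarith

lemma next_B {D : S.Pat} {n : ℕ} (h : S.Rig D n) (h' : S.Rig D (n + 1)) (hB : S.TB D n) :
    S.TB D (n + 1) := by
  have a2 := S.c2'' n
  have a3 := S.ga_ge n
  have het := S.et_pos n
  have hg := S.g_gt (n + 1)
  have hr := S.rpos (n + 2)
  have hs := S.s_eq (n + 1)
  obtain ⟨t1, t2⟩ : S.s (n + 1) - S.w n < S.T D (n + 1) ∧ S.Y n + S.T D (n + 1) < S.g n := by
    rcases ty_cases D n h with ⟨h1, h2⟩ | ⟨h1, h2, h3⟩ | ⟨h1, h2, h3⟩ | ⟨h1, h2⟩ | ⟨h1, h2, h3, h4⟩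
    · exact absurd h1.1 (by rw [hB.1]; simp)
    · exact absurd h1.1 (by rw [hB.1]; simp)
    · exact ⟨h2, h3⟩
    · exact absurd h1.2.2.2 (by rw [hB.2.2.2]; simp)
    · exact absurd hB (TN_not D n h1).2.2.1
  unfold ga at a3
  have e1 : n + 1 + 1 = n + 2 := rfl
  rcases loc D (n + 1) h' with ⟨k1, k2⟩ | ⟨k1, k2⟩ | ⟨k1, k2⟩ | ⟨k1, k2⟩ | ⟨k1, k2 | k2⟩
  · linarith
  · linarith
  · exact k1
  · linarith
  · linarith
  · linarith

lemma next_O {D : S.Pat} {n : ℕ} (h : S.Rig D n) (h' : S.Rig D (n + 1)) (hO : S.TO D n) :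
    ¬ S.TI D (n + 1) := by
  have a1 := S.c2' n
  have het := S.et_pos n
  have t1 : S.T D (n + 1) < S.w n := by
    rcases ty_cases D n h with ⟨h1, h2⟩ | ⟨h1, h2, h3⟩ | ⟨h1, h2, h3⟩ | ⟨h1, h2⟩ | ⟨h1, h2, h3, h4⟩
    · exact h2
    · exact absurd h1.2.2.2 (by rw [hO.2.2.2]; simp)
    · exact absurd h1.1 (by rw [hO.1]; simp)
    · exact absurd h1.1 (by rw [hO.1]; simp)
    · exact absurd hO (TN_not D n h1).1
  intro hI
  rcases loc D (n + 1) h' with ⟨k1, k2⟩ | ⟨k1, k2⟩ | ⟨k1, k2⟩ | ⟨k1, k2⟩ | ⟨k1, k2⟩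
  · exact absurd k1.1 (by rw [hI.1]; simp)
  · exact absurd k1.1 (by rw [hI.1]; simp)
  · exact absurd k1.2.2.2 (by rw [hI.2.2.2]; simp)
  · have e1 : n + 1 + 1 = n + 2 := rfl
    rw [e1] at k2; linarith
  · exact (TN_not D _ k1).2.2.2 hI

lemma next_I {D : S.Pat} {n : ℕ} (h : S.Rig D n) (h' : S.Rig D (n + 1)) (hI : S.TI D n) :
    ¬ S.TO D (n + 1) := by
  have a1 := S.c2'' n
  have het := S.et_pos n
  have t1 : S.s (n + 1) - S.w n < S.T D (n + 1) := by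
    rcases ty_cases D n h with ⟨h1, h2⟩ | ⟨h1, h2, h3⟩ | ⟨h1, h2, h3⟩ | ⟨h1, h2⟩ | ⟨h1, h2, h3, h4⟩
    · exact absurd h1.1 (by rw [hI.1]; simp)
    · exact absurd h1.1 (by rw [hI.1]; simp)
    · exact absurd h1.2.2.2 (by rw [hI.2.2.2]; simp)
    · exact h2
    · exact absurd hI (TN_not D n h1).2.2.2
  intro hO
  rcases loc D (n + 1) h' with ⟨k1, k2⟩ | ⟨k1, k2⟩ | ⟨k1, k2⟩ | ⟨k1, k2⟩ | ⟨k1, k2⟩
  · linarith
  · exact absurd k1.2.2.2 (by rw [hO.2.2.2]; simp)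
  · exact absurd k1.1 (by rw [hO.1]; simp)
  · exact absurd k1.1 (by rw [hO.1]; simp)
  · exact (TN_not D _ k1).1 hO

lemma all_A {D : S.Pat} {N : ℕ} (h : ∀ n, N ≤ n → S.Rig D n) {n : ℕ} (hn : N ≤ n)
    (hA : S.TA D n) : ∀ i, n ≤ i → S.TA D i := by
  intro i hi
  induction i, hi using Nat.le_induction with
  | base => exact hA
  | succ i hi ih => exact next_A (h i (by omega)) (h (i + 1) (by omega)) ih

lemma all_B {D : S.Pat} {N : ℕ} (h : ∀ n, N ≤ n → S.Rig D n) {n : ℕ} (hn : N ≤ n)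
    (hB : S.TB D n) : ∀ i, n ≤ i → S.TB D i := by
  intro i hi
  induction i, hi using Nat.le_induction with
  | base => exact hB
  | succ i hi ih => exact next_B (h i (by omega)) (h (i + 1) (by omega)) ih

/-- eventually constant type. -/
lemma ev_const {D : S.Pat} {N : ℕ} (h : ∀ n, N ≤ n → S.Rig D n) :
    ∃ M, N ≤ M ∧ ((∀ n, M ≤ n → S.TO D n) ∨ (∀ n, M ≤ n → S.TA D n) ∨
      (∀ n, M ≤ n → S.TB D n) ∨ (∀ n, M ≤ n → S.TI D n)) := by
  by_cases hA : ∃ n, N ≤ n ∧ S.TA D n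
  · obtain ⟨n, hn, hA⟩ := hA
    exact ⟨n, hn, Or.inr (Or.inl (all_A h hn hA))⟩
  by_cases hB : ∃ n, N ≤ n ∧ S.TB D n
  · obtain ⟨n, hn, hB⟩ := hB
    exact ⟨n, hn, Or.inr (Or.inr (Or.inl (all_B h hn hB)))⟩
  push Not at hA hB
  have hOI : ∀ n, N ≤ n → S.TO D n ∨ S.TI D n := by
    intro n hn
    rcases ty_cases D n (h n hn) with ⟨h1, -⟩ | ⟨h1, -⟩ | ⟨h1, -⟩ | ⟨h1, -⟩ | ⟨h1, -⟩
    · left; exact h1
    · exact absurd h1 (hA n hn)
    · exact absurd h1 (hB n hn)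
    · right; exact h1
    · rcases next_N (h n hn) (h (n + 1) (by omega)) h1 with h2 | h2
      · exact absurd h2 (hA _ (by omega))
      · exact absurd h2 (hB _ (by omega))
  refine ⟨N, le_rfl, ?_⟩
  rcases hOI N le_rfl with h0 | h0
  · left
    intro n hn
    induction n, hn using Nat.le_induction with
    | base => exact h0
    | succ i hi ih =>
      rcases hOI (i + 1) (by omega) with h1 | h1
      · exact h1
      · exact absurd h1 (next_O (h i (by omega)) (h (i + 1) (by omega)) ih)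
  · right; right; right
    intro n hn
    induction n, hn using Nat.le_induction with
    | base => exact h0
    | succ i hi ih =>
      rcases hOI (i + 1) (by omega) with h1 | h1
      · exact absurd h1 (next_I (h i (by omega)) (h (i + 1) (by omega)) ih)
      · exact h1

/-- after a level of type `N` there is no further one. -/
lemma no_N_after {D : S.Pat} {N : ℕ} (h : ∀ n, N ≤ n → S.Rig D n) {n : ℕ} (hn : N ≤ n)
    (hN : S.TN D n) : ∀ i, n < i → (S.TA D i ∨ S.TB D i) := by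
  intro i hi
  rcases next_N (h n hn) (h (n + 1) (by omega)) hN with h1 | h1
  · left; exact all_A h (by omega) h1 i hi
  · right; exact all_B h (by omega) h1 i hi

/-- eventually constant digits. -/
def EvC (S : Sys) (D : S.Pat) (M : ℕ) (a c : Bool) : Prop :=
  ∀ n, M ≤ n → ee (D n) = a ∧ io (D n) = c ∧ be (D n) = c ∧
    kk (D n) = if c = true then S.m n else 0

lemma evC_of_rig {D : S.Pat} {N : ℕ} (h : ∀ n, N ≤ n → S.Rig D n) :
    ∃ M a c, S.EvC D M a c := by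
  obtain ⟨M, -, h1 | h1 | h1 | h1⟩ := ev_const h
  · exact ⟨M, false, false, fun n hn => ⟨(h1 n hn).2.2.2, (h1 n hn).2.2.1, (h1 n hn).1,
      by simp [(h1 n hn).2.1]⟩⟩
  · exact ⟨M, true, false, fun n hn => ⟨(h1 n hn).2.2.2, (h1 n hn).2.2.1, (h1 n hn).1,
      by simp [(h1 n hn).2.1]⟩⟩
  · exact ⟨M, false, true, fun n hn => ⟨(h1 n hn).2.2.2, (h1 n hn).2.2.1, (h1 n hn).1,
      by simp [(h1 n hn).2.1]⟩⟩
  · exact ⟨M, true, true, fun n hn => ⟨(h1 n hn).2.2.2, (h1 n hn).2.2.1, (h1 n hn).1,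
      by simp [(h1 n hn).2.1]⟩⟩

lemma T_evC {D : S.Pat} {M : ℕ} {a c : Bool} (h : S.EvC D M a c) :
    S.T D M = bv a * S.p M + bv c * S.r M := by
  have := S.T_of_rem D M (fun i => bv a * S.p (M + i) + bv c * S.r (M + i)) ?_ ?_ ?_
  · simpa using this
  · intro i
    obtain ⟨h1, h2, h3, h4⟩ := h (M + i) (by omega)
    rw [S.val_eq, h1, h2, h3, h4]
    have e1 : M + (i + 1) = M + i + 1 := by ring
    rw [e1]
    have hZ := S.Zeq (M + i)
    unfold fv g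
    cases c with
    | false => simp only [bv_false]; push_cast; simp; ring
    | true =>
      simp only [bv_true, if_true]
      unfold Z Y at hZ
      linarith
  · intro i
    have := bv_nonneg a; have := bv_nonneg c
    have := S.ppos (M + i); have := S.rpos (M + i)
    positivity
  · intro i
    have := bv_le a; have := bv_le c
    have := S.ppos (M + i); have := S.rpos (M + i)
    unfold s
    nlinarith

end Sys

end Pool.Agent.Helper752.Card
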