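import Pool.Agent.Helper752.Card.Sys

set_option autoImplicit false

open Finset Filter Topology

namespace Pool.Agent.Helper752.Card

lemma bv_nonneg (x : Bool) : 0 ≤ bv x := by cases x <;> simp
lemma bv_le (x : Bool) : bv x ≤ 1 := by cases x <;> simp

namespace Sys

variable (S : Sys)

/-- formal rigidity at a level. -/
def Rig (D : S.Pat) (n : ℕ) : Prop :=
  ∀ D' : S.Pat, (∀ i, i < n → D' i = D i) → S.T D' 0 = S.T D 0 → fd (D' n) = fd (D n)

def Win (n : ℕ) (e i b : Bool) (c : ℕ) (t : ℝ) : Prop :=
  ∀ (e' i' b' : Bool) (c' : ℕ), c' ≤ S.m n → 0 ≤ S.fv n e i b c + t - S.fv n e' i' b' c' →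
    S.fv n e i b c + t - S.fv n e' i' b' c' ≤ S.s (n + 1) → (e', i', b', c') = (e, i, b, c)

lemma win_of_rig {D : S.Pat} {n : ℕ} (h : S.Rig D n) :
    S.Win n (ee (D n)) (io (D n)) (be (D n)) (kk (D n)) (S.T D (n + 1)) := by
  intro e' i' b' c' hc h0 h1
  rw [← S.val_eq, ← S.T_succ, ← S.val_mkd n e' i' b' hc] at h0 h1
  obtain ⟨D', hD', hn, hT⟩ := S.swap D n _ h0 h1
  have := h D' hD' hT
  rw [hn, fd_mkd e' i' b' hc] at this
  exact this

lemma cls (n : ℕ) (e i b : Bool) (c : ℕ) (hc : c ≤ S.m n) (t : ℝ) (ht0 : 0 ≤ t)
    (ht1 : t ≤ S.s (n + 1)) (W : S.Win n e i b c t) :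
    (b = false ∧ c = 0 ∧ i = false ∧ t < S.w n ∧ (e = false ∨ (e = true ∧ S.ga n < t)))
    ∨ (b = true ∧ c = S.m n ∧ i = true ∧ S.s (n + 1) - S.w n < t ∧
        (e = true ∨ (e = false ∧ S.Y n + t < S.g n)))
    ∨ (((b = false ∧ c = 1) ∨ (b = true ∧ c + 1 = S.m n)) ∧
        S.s (n + 1) - S.w n - S.et n < t ∧ t < S.w n + S.et n ∧
        ((e = false ∧ S.fv n e i b c + t < S.Y n) ∨
          (e = true ∧ S.g n + S.s (n + 1) < S.fv n e i b c + t))) := by
  have hw := S.wpos n
  have het := S.et_pos n
  have hwe := S.w_et_le n
  have hh := S.hpos n
  have hb := S.bpos n
  have hg := S.gpos n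
  have hm := S.hm n
  have hbe := S.beq n
  have hZ := S.Zeq n
  have hY := S.Yeq n
  have hmw := S.w_le_mw n
  have hhl := S.h_le n
  have hZh := S.Z_lt_h n
  have up : c < S.m n → t < S.w n := by
    intro hlt
    by_contra hcon
    push Not at hcon
    have := W e i b (c + 1) hlt (by unfold fv; push_cast; linarith) (by unfold fv; push_cast; linarith)
    simp at this
  have dn : 1 ≤ c → S.s (n + 1) - S.w n < t := by
    intro hle
    by_contra hcon
    push Not at hcon
    obtain ⟨c', rfl⟩ : ∃ c', c = c' + 1 := ⟨c - 1, by omega⟩
    have := W e i b c' (by omega) (by unfold fv; push_cast; linarith) (by unfold fv; push_cast; linarith)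
    simp at this
  have egt : e = true → S.Y n + S.s (n + 1) < S.fv n e i b c + t := by
    intro he
    by_contra hcon
    push Not at hcon
    have h0 : 0 ≤ S.fv n e i b c + t := by
      unfold fv
      have := bv_nonneg e; have := bv_nonneg i; have := bv_nonneg b
      positivity
    obtain ⟨ι, β, c', h1, h2, h3⟩ := S.cov_h n _ h0 hcon
    have := W false ι β c' h1 (by unfold fv at *; rw [bv_false]; linarith)
      (by unfold fv at *; rw [bv_false]; linarith)
    rw [he] at this
    simp at this
  have elt' : e = false → S.fv n e i b c + t < S.g n := by
    intro he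
    by_contra hcon
    push Not at hcon
    have h0 : S.fv n e i b c + t - S.g n ≤ S.Y n + S.s (n + 1) := by
      unfold fv
      rw [he, bv_false]
      have h1 := bv_le i; have h2 := bv_le b
      have h3 : (c : ℝ) * S.w n ≤ S.m n * S.w n := by
        apply mul_le_mul_of_nonneg_right _ hw.le
        exact_mod_cast hc
      have h4 : bv i * S.h n ≤ S.h n := by nlinarith
      have h5 : bv b * S.b n ≤ S.b n := by nlinarith
      linarith
    obtain ⟨ι, β, c', h1, h2, h3⟩ := S.cov_h n (S.fv n e i b c + t - S.g n) (by linarith) h0
    have := W true ι β c' h1 (by unfold fv at *; rw [bv_true]; linarith)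
      (by unfold fv at *; rw [bv_true]; linarith)
    rw [he] at this
    simp at this
  cases b with
  | false =>
    have hc1 : c ≤ 1 := by
      by_contra hcon
      push Not at hcon
      have h1 := dn (by omega)
      obtain ⟨c', rfl⟩ : ∃ c', c = c' + 2 := ⟨c - 2, by omega⟩
      have := W e i true c' (by omega) (by unfold fv; simp only [bv_true, bv_false]; push_cast; linarith)
        (by unfold fv; simp only [bv_true, bv_false]; push_cast; linarith)
      simp at this
    rcases Nat.lt_or_ge c 1 with h0 | h1
    · have hc0 : c = 0 := by omega
      subst hc0
      have htw := up (by omega)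
      left
      have hi : i = false := by
        cases i with
        | false => rfl
        | true =>
          exfalso
          have h3 : S.h n + t ≤ S.Z n + S.s (n + 1) := by linarith
          obtain ⟨β, c', h4, h5, h6⟩ := S.cov_b n (S.h n + t) (by linarith) h3
          have := W e false β c' h4
            (by unfold fv; simp only [bv_true, bv_false]; push_cast; linarith)
            (by unfold fv; simp only [bv_true, bv_false]; push_cast; linarith)
          simp at this
      refine ⟨rfl, rfl, hi, htw, ?_⟩
      cases e with
      | false => left; rfl
      | true =>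
        right
        refine ⟨rfl, ?_⟩
        have := egt rfl
        unfold fv at this
        rw [hi] at this
        simp only [bv_true, bv_false, Nat.cast_zero] at this
        unfold ga
        linarith
    · have hc1' : c = 1 := by omega
      subst hc1'
      have hd := dn le_rfl
      right; right
      have hu : t < S.w n + S.et n := by
        rcases Nat.lt_or_ge 1 (S.m n) with h2 | h2
        · have := up h2; linarith
        · by_contra hcon
          push Not at hcon
          have := W e i true 0 (by omega)
            (by unfold fv; simp only [bv_true, bv_false]; push_cast; linarith)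
            (by unfold fv; simp only [bv_true, bv_false]; push_cast; linarith)
          simp at this
      refine ⟨Or.inl ⟨rfl, rfl⟩, by linarith, hu, ?_⟩
      cases e with
      | false =>
        left
        refine ⟨rfl, ?_⟩
        unfold fv
        cases i <;> simp only [bv_true, bv_false] <;> push_cast <;> linarith
      | true =>
        right
        refine ⟨rfl, ?_⟩
        unfold fv
        cases i <;> simp only [bv_true, bv_false] <;> push_cast <;> linarith
  | true =>
    have hc1 : S.m n ≤ c + 1 := by
      by_contra hcon
      push Not at hcon
      have h1 := up (by omega)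
      have := W e i false (c + 2) (by omega)
        (by unfold fv; simp only [bv_true, bv_false]; push_cast; linarith)
        (by unfold fv; simp only [bv_true, bv_false]; push_cast; linarith)
      simp at this
    rcases Nat.lt_or_ge c (S.m n) with h0 | h1
    · have hcm : c + 1 = S.m n := by omega
      have htw := up h0
      right; right
      have hcr : (S.m n : ℝ) = c + 1 := by rw [← hcm]; push_cast; ring
      have hd : S.s (n + 1) - S.w n - S.et n < t := by
        rcases Nat.lt_or_ge c 1 with h2 | h2
        · have hc0 : c = 0 := by omega
          subst hc0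
          by_contra hcon
          push Not at hcon
          have := W e i false 1 (by omega)
            (by unfold fv; simp only [bv_true, bv_false]; push_cast; linarith)
            (by unfold fv; simp only [bv_true, bv_false]; push_cast; linarith)
          simp at this
        · have := dn h2; linarith
      refine ⟨Or.inr ⟨rfl, hcm⟩, hd, by linarith, ?_⟩
      rw [hcr] at hZ hmw
      cases e with
      | false =>
        left
        refine ⟨rfl, ?_⟩
        unfold fv
        cases i <;> simp only [bv_true, bv_false] <;> linarith
      | true =>
        right
        refine ⟨rfl, ?_⟩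
        unfold fv
        cases i <;> simp only [bv_true, bv_false] <;> linarith
    · have hcm : c = S.m n := by omega
      subst hcm
      have hd := dn (by omega)
      right; left
      have hi : i = true := by
        cases i with
        | true => rfl
        | false =>
          exfalso
          have h3 : S.h n ≤ S.Z n + t := by linarith
          obtain ⟨β, c', h4, h5, h6⟩ := S.cov_b n (S.Z n + t - S.h n) (by linarith) (by linarith)
          have := W e true β c' h4
            (by unfold fv; simp only [bv_true, bv_false]; linarith)
            (by unfold fv; simp only [bv_true, bv_false]; linarith)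
          simp at this
      refine ⟨rfl, rfl, hi, hd, ?_⟩
      cases e with
      | true => left; rfl
      | false =>
        right
        refine ⟨rfl, ?_⟩
        have := elt' rfl
        unfold fv at this
        rw [hi] at this
        simp only [bv_true, bv_false] at this
        linarith

end Sys

end Pool.Agent.Helper752.Card
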